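import Pool.Agent.H.MP_374efc_lc.Oe.Gq

/-!
# MP_374efc_lc: formulas whose first or last entry is the depth

`RS h w k d js`: the word `w_(k+d)` is the product of the words `w_(k+j)`, `j` in `js`, `j < d`.
`DF`: such a relation with first index `0` (a formula whose first entry is its depth), `DL`: with last index `0`,
`RelE h w p`: at the level `p = k + d`, with first and last index `0`.  The classes and types pass through the reduction.
-/

set_option autoImplicit false

namespace D0L

/-- `w_(k+d)` is the product of the words `w_(k+j)`, `j` in `js`. -/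
def RS {α : Type} (h : α → List α) (w : List α) (k d : ℕ) (js : List ℕ) : Prop :=
  (∀ j ∈ js, j < d) ∧ it h (k + d) w = (js.map (fun j => it h (k + j) w)).flatten

/-- A formula whose first entry is its depth. -/
def DF {α : Type} (h : α → List α) (w : List α) : Prop :=
  ∃ (k d : ℕ) (js : List ℕ), RS h w k d (0 :: js)

/-- A formula whose last entry is its depth. -/
def DL {α : Type} (h : α → List α) (w : List α) : Prop :=
  ∃ (k d : ℕ) (js : List ℕ), RS h w k d (js ++ [0])

/-- A formula whose first and last entries are its depth, at the level `p`. -/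
def RelE {α : Type} (h : α → List α) (w : List α) (p : ℕ) : Prop :=
  ∃ (k d : ℕ) (js : List ℕ), k + d = p ∧ RS h w k d js ∧ js.head? = some 0 ∧ js.getLast? = some 0

theorem RS.up {α : Type} {h : α → List α} {w : List α} {k d : ℕ} {js : List ℕ}
    (hr : RS h w k d js) (s : ℕ) : RS h w (k + s) d js := by
  refine ⟨hr.1, ?_⟩
  have h1 := congrArg (it h s) hr.2
  rw [it_flatten, List.map_map, ← it_add] at h1
  rw [show k + s + d = s + (k + d) by ring, h1]
  congr 1
  apply List.map_congr_left
  intro j _
  simp only [Function.comp]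
  rw [← it_add]
  congr 1
  ring

theorem rs_it {α : Type} {h : α → List α} {w : List α} {k d s : ℕ} {js : List ℕ} :
    RS h (it h s w) k d js ↔ RS h w (k + s) d js := by
  unfold RS
  have h1 : it h (k + d) (it h s w) = it h (k + s + d) w := by
    rw [← it_add]
    congr 1
    ring
  have h2 : js.map (fun j => it h (k + j) (it h s w)) = js.map (fun j => it h (k + s + j) w) := by
    apply List.map_congr_left
    intro j _
    rw [← it_add]
    congr 1
    ring
  rw [h1, h2]

theorem RS.gf {α δ : Type} {h : α → List α} {f : α → List δ} {g : δ → List α} {w : List α}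
    {k d : ℕ} {js : List ℕ} (hfg : ∀ a, app g (f a) = h a) (hr : RS h w k d js) :
    RS (fun d => app f (g d)) (app f w) k d js := by
  refine ⟨hr.1, ?_⟩
  rw [it_gf hfg, hr.2, app_flatten, List.map_map]
  congr 1
  apply List.map_congr_left
  intro j _
  simp only [Function.comp]
  rw [it_gf hfg]

theorem RS.of_gf {α δ : Type} {h : α → List α} {f : α → List δ} {g : δ → List α} {w : List α}
    {k d : ℕ} {js : List ℕ} (hfg : ∀ a, app g (f a) = h a)
    (hr : RS (fun d => app f (g d)) (app f w) k d js) : RS h w (k + 1) d js := by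
  refine ⟨hr.1, ?_⟩
  have h4 : ∀ x : List α, app g (app f x) = app h x := by
    intro x
    rw [app_app]
    congr 1
    funext a
    exact hfg a
  have h3 := congrArg (app g) hr.2
  rw [it_gf hfg, app_flatten, List.map_map, h4] at h3
  rw [show k + 1 + d = k + d + 1 by ring, it_succ, h3]
  congr 1
  apply List.map_congr_left
  intro j _
  simp only [Function.comp]
  rw [it_gf hfg, h4, show k + 1 + j = k + j + 1 by ring, it_succ]

theorem RS.of_code {α β : Type} {h : α → List α} {k' : β → List β} {c : β → List α} {v : List β}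
    {k d : ℕ} {js : List ℕ} (hk : ∀ b, app h (c b) = app c (k' b)) (hr : RS k' v k d js) :
    RS h (app c v) k d js := by
  refine ⟨hr.1, ?_⟩
  rw [← it_code hk, hr.2, app_flatten, List.map_map]
  congr 1
  apply List.map_congr_left
  intro j _
  simp only [Function.comp]
  rw [it_code hk]

theorem RS.code {α β : Type} {h : α → List α} {k' : β → List β} {c : β → List α} {v : List β}
    {k d : ℕ} {js : List ℕ} (hc : Function.Injective (app c))
    (hk : ∀ b, app h (c b) = app c (k' b)) (hr : RS h (app c v) k d js) : RS k' v k d js := by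
  refine ⟨hr.1, ?_⟩
  apply hc
  rw [it_code hk, hr.2, app_flatten, List.map_map]
  congr 1
  apply List.map_congr_left
  intro j _
  simp only [Function.comp]
  rw [it_code hk]

theorem RS.of_orbit {α β : Type} {h : α → List α} {w : List α} {g : β → List β} {u : List β}
    {ι : β → α} {t m k d : ℕ} {js : List ℕ} (ht : 0 < t) (hg : ∀ b, (g b).map ι = it h t [ι b])
    (hu : u.map ι = it h m w) (hr : RS g u k d js) :
    RS h w (t * k + m) (t * d) (js.map (fun j => t * j)) := by
  refine ⟨?_, ?_⟩
  · intro j hj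
    rw [List.mem_map] at hj
    obtain ⟨i, hi, rfl⟩ := hj
    exact Nat.mul_lt_mul_of_pos_left (hr.1 i hi) ht
  · have h4 := congrArg (List.map ι) hr.2
    rw [it_map hg, hu, ← it_add, List.map_flatten, List.map_map] at h4
    rw [show t * k + m + t * d = t * (k + d) + m by ring, h4, List.map_map]
    congr 1
    apply List.map_congr_left
    intro j _
    simp only [Function.comp]
    rw [it_map hg, hu, ← it_add]
    congr 1
    ring

theorem RS.orbit {α β : Type} {h : α → List α} {w : List α} {g : β → List β} {u : List β}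
    {ι : β → α} {t m k d : ℕ} {js : List ℕ} (hι : Function.Injective ι) (ht : 0 < t)
    (hg : ∀ b, (g b).map ι = it h t [ι b]) (hu : u.map ι = it h m w)
    (hT : ∀ (k d : ℕ) (js : List ℕ), (∀ j ∈ js, j < d) →
      it h (k + d) w = (js.map (fun j => it h (k + j) w)).flatten → ∀ j ∈ js, t ∣ d - j)
    (h0 : 0 ∈ js) (hr : RS h w k d js) : RS g u k (d / t) (js.map (fun j => j / t)) := by
  have hd : t ∣ d := by
    have := hT k d js hr.1 hr.2 0 h0
    simpa using this
  have hj : ∀ j ∈ js, t ∣ j := by
    intro j hj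
    have h1 := hT k d js hr.1 hr.2 j hj
    have h2 := hr.1 j hj
    have h3 := Nat.dvd_sub hd h1
    rwa [Nat.sub_sub_self h2.le] at h3
  obtain ⟨q, hq⟩ : ∃ q, k + q = t * k + m := by
    obtain ⟨t', rfl⟩ : ∃ t', t = t' + 1 := ⟨t - 1, by omega⟩
    exact ⟨t' * k + m, by ring⟩
  have hr' := hr.up q
  rw [hq] at hr'
  refine ⟨?_, ?_⟩
  · intro i hi
    rw [List.mem_map] at hi
    obtain ⟨j, hj1, rfl⟩ := hi
    exact Nat.div_lt_div_of_lt_of_dvd hd (hr.1 j hj1)
  · apply (List.map_injective_iff.2 hι)
    have h1 : t * (d / t) = d := Nat.mul_div_cancel' hd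
    rw [it_map hg, hu, ← it_add, show t * (k + d / t) + m = t * k + m + t * (d / t) by ring, h1,
      hr'.2, List.map_flatten, List.map_map, List.map_map]
    congr 1
    apply List.map_congr_left
    intro j hj1
    simp only [Function.comp]
    have h2 : t * (j / t) = j := Nat.mul_div_cancel' (hj j hj1)
    rw [it_map hg, hu, ← it_add, show t * (k + j / t) + m = t * k + m + t * (j / t) by ring, h2]

theorem DF.clQ : ClQ (fun α _ h w => DF h w) where
  gf := by
    rintro α δ _ _ h f g w h1 - - ⟨k, d, js, h2⟩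
    exact ⟨k, d, js, h2.gf h1⟩
  orbit := by
    rintro α β _ _ h w g u ι t m h1 h2 h3 h4 h5 ⟨k, d, js, h6⟩
    refine ⟨k, d / t, js.map (fun j => j / t), ?_⟩
    have := h6.orbit h1 h2 h3 h4 h5 (by simp)
    simpa using this
  shift := by
    rintro α _ h w s ⟨k, d, js, h1⟩
    exact ⟨k, d, js, rs_it.2 (h1.up s)⟩
  code := by
    rintro α β _ _ h k' c v h1 h2 ⟨k, d, js, h3⟩
    exact ⟨k, d, js, h3.code h1 h2⟩

theorem DL.clQ : ClQ (fun α _ h w => DL h w) where
  gf := by
    rintro α δ _ _ h f g w h1 - - ⟨k, d, js, h2⟩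
    exact ⟨k, d, js, h2.gf h1⟩
  orbit := by
    rintro α β _ _ h w g u ι t m h1 h2 h3 h4 h5 ⟨k, d, js, h6⟩
    refine ⟨k, d / t, js.map (fun j => j / t), ?_⟩
    have := h6.orbit h1 h2 h3 h4 h5 (by simp)
    simpa using this
  shift := by
    rintro α _ h w s ⟨k, d, js, h1⟩
    exact ⟨k, d, js, rs_it.2 (h1.up s)⟩
  code := by
    rintro α β _ _ h k' c v h1 h2 ⟨k, d, js, h3⟩
    exact ⟨k, d, js, h3.code h1 h2⟩

/-- The conjunction of two classes. -/
theorem ClQ.and {Q Q' : ∀ (α : Type) [Fintype α], (α → List α) → List α → Prop} (h1 : ClQ Q)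
    (h2 : ClQ Q') : ClQ (fun α _ h w => Q α h w ∧ Q' α h w) where
  gf := fun α δ _ _ h f g w a b c q =>
    ⟨h1.gf α δ h f g w a b c q.1, h2.gf α δ h f g w a b c q.2⟩
  orbit := fun α β _ _ h w g u ι t m a b c d e q =>
    ⟨h1.orbit α β h w g u ι t m a b c d e q.1, h2.orbit α β h w g u ι t m a b c d e q.2⟩
  shift := fun α _ h w s q => ⟨h1.shift α h w s q.1, h2.shift α h w s q.2⟩
  code := fun α β _ _ h k c v a b q => ⟨h1.code α β h k c v a b q.1, h2.code α β h k c v a b q.2⟩

theorem per2E {α : Type} [Fintype α] {h : α → List α} {w : List α} {σ : α → α} (hc : Cyc h σ)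
    (hgr : ∀ a, Gr h a) (hl : Legal h w) (hw : w ≠ []) (hlc : LC h w) :
    ∃ p ≤ Fintype.card α, RelE h w p := by
  classical
  obtain ⟨s, w', hsw⟩ := List.exists_cons_of_ne_nil hw
  have hne : Nonempty α := ⟨s⟩
  obtain ⟨r, hr2, hr⟩ := Per2_r hc hgr
  obtain ⟨E, hE, hHE⟩ := Per2_E hc
  obtain ⟨n0, hn0⟩ : ∃ n, n = w.length := ⟨_, rfl⟩
  have hwch : w = Per2_ch σ s n0 := by
    rw [hn0]
    exact Per2_legal_ch hc hl hsw
  obtain ⟨t, ht⟩ : ∃ t, t = σ^[n0] s := ⟨_, rfl⟩
  -- the iterates of `w`
  have hit : ∀ m, it h m w = Per2_ch σ ((Per2_H hc)^[m] s) (it h m w).length ∧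
      σ^[(it h m w).length] ((Per2_H hc)^[m] s) = (Per2_H hc)^[m] t := by
    intro m
    have h1 := Per2_it_ch hc m s n0
    rw [← hwch, ← ht] at h1
    exact h1
  have hn0' : 0 < n0 := by
    rw [hn0]
    exact List.length_pos_of_ne_nil hw
  have hpos : ∀ m, 0 < (it h m w).length := by
    intro m
    have h1 := Per2_len_it hc m w
    rw [← hn0] at h1
    omega
  -- two consecutive tiles
  obtain ⟨N, js, hjs, hjlt, hprod⟩ := hlc
  have htwo : ∃ i j, (Per2_H hc)^[i] t = (Per2_H hc)^[j] s := by
    match js, hjs, hjlt, hprod with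
    | [j], _, hjlt, hprod =>
      exfalso
      have hj := hjlt j (by simp)
      simp only [List.map_cons, List.map_nil, List.flatten_cons, List.flatten_nil,
        List.append_nil] at hprod
      -- lengths are bounded
      have h1 : ∀ k, (it h (j + k * (N - j)) w).length = (it h j w).length := by
        intro k
        induction k with
        | zero => simp
        | succ k ih =>
          have h2 : j + (k + 1) * (N - j) = k * (N - j) + N := by
            rw [Nat.succ_mul]
            omega
          rw [h2, it_add, hprod, ← it_add, Nat.add_comm, ih]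
      obtain ⟨m, hm⟩ := hgr s ((it h j w).length + 1)
      have h3 : (it h m [s]).length ≤ (it h m w).length := by
        rw [hsw]
        have h4 : it h m (s :: w') = it h m [s] ++ it h m w' := by
          rw [← it_append]
          rfl
        rw [h4, List.length_append]
        omega
      have h4 : (it h m w).length ≤ (it h (j + m * (N - j)) w).length := by
        have h5 : m ≤ j + m * (N - j) := by
          have h6 : 1 ≤ N - j := by omega
          nlinarith
        obtain ⟨d, hd⟩ := Nat.exists_eq_add_of_le h5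
        rw [hd, Nat.add_comm, it_add]
        exact Per2_len_it hc d _
      rw [h1] at h4
      omega
    | i :: j :: js', _, hjlt, hprod =>
      refine ⟨i, j, ?_⟩
      have hN := (hit N).1
      simp only [List.map_cons, List.flatten_cons] at hprod
      have h1 := hN
      rw [hprod] at h1
      rw [List.length_append, List.length_append, ← Nat.add_assoc, Per2_ch_add, Per2_ch_add] at h1
      have h2 : (Per2_H hc)^[N] s = (Per2_H hc)^[i] s := by
        have h3 := (hit i).1
        rw [List.append_assoc] at h1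
        have h4 := (List.append_inj h1 (by rw [Per2_ch_length])).1
        rw [h3] at h4
        exact (Per2_ch_head (hpos i) h4).symm
      rw [List.append_assoc] at h1
      have h4 := (List.append_inj h1 (by rw [Per2_ch_length])).2
      have h5 := (List.append_inj h4 (by rw [Per2_ch_length])).1
      rw [(hit j).1] at h5
      have h6 := Per2_ch_head (hpos j) h5
      rw [h6, h2, (hit i).2]
  obtain ⟨i, j, hij⟩ := htwo
  obtain ⟨a, ha⟩ : ∃ a, t = (Per2_H hc)^[a] s := by
    refine ⟨(E - 1) * i + j, ?_⟩
    rw [Function.iterate_add_apply, ← hij, ← Function.iterate_add_apply]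
    have h1 : (E - 1) * i + i = E * i := by
      obtain ⟨E', rfl⟩ : ∃ E', E = E' + 1 := ⟨E - 1, by omega⟩
      simp only [Nat.add_sub_cancel]
      ring
    rw [h1, Function.iterate_mul, hHE, Function.iterate_id, id]
  -- the period
  have hsper : s ∈ Function.periodicPts (Per2_H hc) := by
    refine ⟨E, hE, ?_⟩
    change (Per2_H hc)^[E] s = s
    rw [hHE, id]
  obtain ⟨e, he⟩ : ∃ e, e = Function.minimalPeriod (Per2_H hc) s := ⟨_, rfl⟩
  have hepos : 0 < e := by
    rw [he]
    exact Function.minimalPeriod_pos_of_mem_periodicPts hsper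
  have hecard : e ≤ Fintype.card α := by
    have h2 : ((Finset.range e).image (fun i => (Per2_H hc)^[i] s)).card = e := by
      rw [Finset.card_image_of_injOn, Finset.card_range]
      intro i hi j hj hij
      have hi' := Finset.mem_range.1 (Finset.mem_coe.1 hi)
      have hj' := Finset.mem_range.1 (Finset.mem_coe.1 hj)
      rw [he] at hi' hj'
      exact Function.iterate_injOn_Iio_minimalPeriod (Set.mem_Iio.2 hi') (Set.mem_Iio.2 hj') hij
    rw [← h2]
    exact Finset.card_le_univ _
  have hes : (Per2_H hc)^[e] s = s := by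
    rw [he]
    exact Function.isPeriodicPt_minimalPeriod _ _
  have hmod : ∀ m, (Per2_H hc)^[m % e] s = (Per2_H hc)^[m] s := by
    intro m
    rw [he]
    exact Function.iterate_mod_minimalPeriod_eq
  have hmodt : ∀ m, (Per2_H hc)^[m % e] t = (Per2_H hc)^[m] t := by
    intro m
    rw [ha, ← Function.iterate_add_apply, ← Function.iterate_add_apply, ← hmod (m % e + a),
      Nat.mod_add_mod, hmod]
  obtain ⟨K, hK⟩ : ∃ K, K = (r ^ Nat.gcd a e - 1) * (e / Nat.gcd a e) + 1 := ⟨_, rfl⟩
  have hKt : (Per2_H hc)^[K * a] s = t := by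
    have h1 : e ∣ (e / Nat.gcd a e) * a := by
      obtain ⟨a1, ha1⟩ := Nat.gcd_dvd_left a e
      have h2 : e / Nat.gcd a e * a = e * a1 := by
        calc e / Nat.gcd a e * a = e / Nat.gcd a e * (Nat.gcd a e * a1) := by rw [← ha1]
          _ = e * a1 := by rw [← mul_assoc, Nat.div_mul_cancel (Nat.gcd_dvd_right a e)]
      rw [h2]
      exact Dvd.intro _ rfl
    have h2 : K * a = (r ^ Nat.gcd a e - 1) * (e / Nat.gcd a e * a) + a := by
      rw [hK]
      ring
    rw [← hmod, h2, Nat.add_mod, Nat.dvd_iff_mod_eq_zero.1 (h1.mul_left _), zero_add, Nat.mod_mod,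
      hmod, ha]
  -- the product
  obtain ⟨P, hP⟩ : ∃ P : ℕ → List α, ∀ l, P l =
      (((List.range l).map (fun l => (l * a) % e)).map (fun j => it h j w)).flatten := ⟨_, fun _ => rfl⟩
  have hPs : ∀ l, P (l + 1) = P l ++ it h ((l * a) % e) w := by
    intro l
    rw [hP, hP, List.range_succ, List.map_append, List.map_append, List.flatten_append]
    simp
  have hPch : ∀ l, P l = Per2_ch σ s (P l).length ∧ σ^[(P l).length] s = (Per2_H hc)^[l * a] s := by
    intro l
    induction l with
    | zero =>
      have h1 : P 0 = [] := by rw [hP]; rfl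
      rw [h1]
      simp [Per2_ch]
    | succ l ih =>
      obtain ⟨i1, i2⟩ := ih
      obtain ⟨j1, j2⟩ := hit ((l * a) % e)
      rw [hmod] at j1 j2
      rw [hmodt] at j2
      rw [hPs, List.length_append, Per2_ch_add, ← i1, i2, ← j1]
      refine ⟨rfl, ?_⟩
      rw [Nat.add_comm, Function.iterate_add_apply, i2, j2, ha, ← Function.iterate_add_apply]
      congr 1
      ring
  have hlamw : ∀ m, Per2_lam h E (it h m w) = r ^ m * Per2_lam h E w := by
    intro m
    rw [hwch]
    exact Per2_lam_it hc hr hHE s n0 m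
  have hlamP : ∀ l, Per2_lam h E (P l) =
      ((∑ l ∈ Finset.range l, r ^ ((l * a) % e) : ℕ) : ℤ) * Per2_lam h E w := by
    intro l
    induction l with
    | zero =>
      have h1 : P 0 = [] := by rw [hP]; rfl
      rw [h1]
      simp [Per2_lam, it_nil]
    | succ l ih =>
      rw [hPs, Per2_lam_append, ih, hlamw, Finset.sum_range_succ]
      push_cast
      ring
  have hlamK : Per2_lam h E (P K) = Per2_lam h E (it h e w) := by
    rw [hlamP, hlamw, hK, per_sum r a e (by omega) hepos]
    push_cast
    ring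
  have hPK := hPch K
  rw [hKt] at hPK
  have hie := hit e
  rw [hes] at hie
  have het : (Per2_H hc)^[e] t = t := by
    rw [ha, ← Function.iterate_add_apply, Nat.add_comm, Function.iterate_add_apply, hes]
  rw [het] at hie
  have hlen : (P K).length = (it h e w).length := by
    rcases lt_trichotomy (P K).length (it h e w).length with hlt | heq | hgt
    · exfalso
      obtain ⟨d, hd⟩ := Nat.exists_eq_add_of_lt hlt
      rw [Nat.add_assoc] at hd
      have h1 := hie.1
      rw [hd, Per2_ch_add, ← hPK.1, hPK.2] at h1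
      have h2 := hie.2
      rw [hd, Nat.add_comm, Function.iterate_add_apply, hPK.2] at h2
      have h3 := (Per2_fix hc _ _).1 h2
      have h4 := Per2_lam_closed hc hr2 hr hE t h3 (Nat.succ_pos d)
      rw [h1, Per2_lam_append] at hlamK
      linarith
    · exact heq
    · exfalso
      obtain ⟨d, hd⟩ := Nat.exists_eq_add_of_lt hgt
      rw [Nat.add_assoc] at hd
      have h1 := hPK.1
      rw [hd, Per2_ch_add, ← hie.1, hie.2] at h1
      have h2 := hPK.2
      rw [hd, Nat.add_comm, Function.iterate_add_apply, hie.2] at h2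
      have h3 := (Per2_fix hc _ _).1 h2
      have h4 := Per2_lam_closed hc hr2 hr hE t h3 (Nat.succ_pos d)
      rw [h1, Per2_lam_append] at hlamK
      linarith
  have hlast : ((K - 1) * a) % e = 0 := by
    have h1 : e ∣ (e / Nat.gcd a e) * a := by
      obtain ⟨a1, ha1⟩ := Nat.gcd_dvd_left a e
      have h2 : e / Nat.gcd a e * a = e * a1 := by
        calc e / Nat.gcd a e * a = e / Nat.gcd a e * (Nat.gcd a e * a1) := by rw [← ha1]
          _ = e * a1 := by rw [← mul_assoc, Nat.div_mul_cancel (Nat.gcd_dvd_right a e)]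
      rw [h2]
      exact Dvd.intro _ rfl
    rw [hK, Nat.add_sub_cancel, mul_assoc]
    exact Nat.dvd_iff_mod_eq_zero.1 (h1.mul_left _)
  refine ⟨e, hecard, 0, e, (List.range K).map (fun l => (l * a) % e), Nat.zero_add e, ⟨?_, ?_⟩,
    ?_, ?_⟩
  · intro j hj
    rw [List.mem_map] at hj
    obtain ⟨l, -, rfl⟩ := hj
    exact Nat.mod_lt _ hepos
  · have h1 : ((List.range K).map (fun l => (l * a) % e)).map (fun j => it h (0 + j) w) =
        ((List.range K).map (fun l => (l * a) % e)).map (fun j => it h j w) := by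
      apply List.map_congr_left
      intro j _
      rw [Nat.zero_add]
    rw [h1, Nat.zero_add, ← hP, hPK.1, hie.1, hlen]
  · obtain ⟨K', hK'⟩ : ∃ K', K = K' + 1 := ⟨_, hK⟩
    rw [hK', List.range_succ_eq_map, List.map_cons, List.head?_cons, Nat.zero_mul, Nat.zero_mod]
  · obtain ⟨K', hK'⟩ : ∃ K', K = K' + 1 := ⟨_, hK⟩
    rw [hK', Nat.add_sub_cancel] at hlast
    rw [hK', List.range_succ, List.map_append, List.map_singleton, List.getLast?_append,
      List.getLast?_singleton, hlast]
    rfl

theorem RelE.clR : ClR (fun _ h w p => RelE h w p) where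
  nil := by
    intro α h
    exact ⟨0, 1, [0], rfl, ⟨by simp, by simp [it_nil]⟩, rfl, rfl⟩
  bw := by
    intro α h w i j hij he
    refine ⟨i, j - i, [0], by omega, ⟨?_, ?_⟩, rfl, rfl⟩
    · intro k hk
      rw [List.mem_singleton] at hk
      omega
    · rw [show i + (j - i) = j by omega, ← he]
      simp
  one := by
    rintro α h w ⟨js, h1, h2, h3⟩
    have h4 : ∀ j ∈ js, j = 0 := fun j hj => by
      have := h2 j hj
      omega
    refine ⟨0, 1, js, rfl, ⟨h2, ?_⟩, ?_, ?_⟩
    · rw [Nat.zero_add, h3]
      congr 1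
      apply List.map_congr_left
      intro j _
      rw [Nat.zero_add]
    · obtain ⟨a, t, rfl⟩ := List.exists_cons_of_ne_nil h1
      rw [List.head?_cons, h4 a (by simp)]
    · rw [List.getLast?_eq_getLast_of_ne_nil h1, h4 _ (List.getLast_mem h1)]
  per := fun _ _ _ _ _ h1 h2 h3 h4 h5 => per2E h1 h2 h3 h4 h5
  gf := by
    rintro α δ h f g w p h1 ⟨k, d, js, rfl, h3, h4, h5⟩
    exact ⟨k + 1, d, js, by ring, h3.of_gf h1, h4, h5⟩
  orbit := by
    rintro α β h w g u ι t m p h1 h2 h3 ⟨k, d, js, rfl, h4, h5, h6⟩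
    refine ⟨t * k + m, t * d, js.map (fun j => t * j), by ring, h4.of_orbit h1 h2 h3, ?_, ?_⟩
    · rw [List.head?_map, h5]
      rfl
    · rw [List.getLast?_map, h6]
      rfl
  code := by
    rintro α β h k' c v p h1 ⟨k, d, js, rfl, h4, h5, h6⟩
    exact ⟨k, d, js, rfl, h4.of_code h1, h5, h6⟩
  unshift := by
    rintro α h w s p ⟨k, d, js, rfl, h4, h5, h6⟩
    exact ⟨k + s, d, js, by ring, rs_it.1 h4, h5, h6⟩

/-- **The bound for the formulas with both ends equal to the depth**, from the statement on normal forms. -/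
theorem boundE_of (hNF : ∀ (n N : ℕ) (H : Fin n → List (Fin n)) (b0 : List (Fin n)), NF H b0 N →
    DF H b0 → DL H b0 → RelE H b0 n) :
    ∃ F, Computable F ∧ ∀ (α : Type) [Fintype α] (h : α → List α) (w : List α) (s : ℕ),
      Sz s h w → DF h w → DL h w → ∃ p ≤ F s, RelE h w p := by
  obtain ⟨F, hF, hB⟩ := boundQ (DF.clQ.and DL.clQ) RelE.clR
    fun n N H b0 h1 h2 => ⟨n, le_rfl, hNF n N H b0 h1 h2.1 h2.2⟩
  refine ⟨F, hF, fun α _ h w s hs h1 h2 => hB α h w s hs ⟨h1, h2⟩ ?_⟩
  obtain ⟨k, d, js, h3, h4⟩ := h1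
  refine ⟨k + d, (0 :: js).map (fun j => k + j), by simp, ?_, ?_⟩
  · intro j hj
    rw [List.mem_map] at hj
    obtain ⟨i, hi, rfl⟩ := hj
    have := h3 i hi
    omega
  · rw [h4, List.map_map]
    rfl

end D0L
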