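import Pool.Agent.H.MP_374efc_lc.Oe.Sh2

/-!
# MP_374efc_lc: decidability of the existence of a formula which ends with `1`

`i1_decidable_last`: the mirror statement of `i1_decidable`, obtained by reversing the coded system.
`i1_decidable_or`: the systems with a formula which begins or a formula which ends with `1`.
-/

set_option autoImplicit false

namespace D0L

theorem hs_rvC (c : List (List ℕ) × List ℕ) : hs (rvC c) = rev (hs c) := by
  funext a
  change (c.1.map List.reverse).getD a [] = (c.1.getD a []).reverse
  by_cases ha : a < c.1.length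
  · rw [List.getD_eq_getElem _ _ (by simpa using ha), List.getD_eq_getElem _ _ ha,
      List.getElem_map]
  · rw [List.getD_eq_default _ _ (by simpa using ha), List.getD_eq_default _ _ (by omega)]
    rfl

theorem lword_rvC (c : List (List ℕ) × List ℕ) (n : ℕ) : lword (rvC c) n = (lword c n).reverse := by
  have h1 : ∀ c n, lword c n = it (hs c) n c.2 := fun _ _ => rfl
  rw [h1, h1, hs_rvC]
  exact wf_it_rev n c.2

theorem lsat_rvC (c : List (List ℕ) × List ℕ) (is : List ℕ) :
    LSat (rvC c) is ↔ LSat c is.reverse := by
  unfold LSat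
  have h1 : ∀ n, (lword (rvC c) n = (is.map fun i => lword (rvC c) (n - i)).flatten) ↔
      (lword c n = (is.reverse.map fun i => lword c (n - i)).flatten) := by
    intro n
    have h2 : (is.map fun i => lword (rvC c) (n - i)).flatten =
        (is.reverse.map fun i => lword c (n - i)).flatten.reverse := by
      have h3 : (fun i => lword (rvC c) (n - i)) = fun i => (lword c (n - i)).reverse := by
        funext i
        exact lword_rvC c (n - i)
      rw [h3, List.map_reverse, List.reverse_flatten, List.map_reverse, List.reverse_reverse,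
        List.map_map]
      rfl
    rw [h2, lword_rvC]
    exact List.reverse_inj
  simp only [h1, List.mem_reverse, ne_eq, List.reverse_eq_nil_iff]

/-- **Decidability of the formulas which end with `1`.** -/
theorem i1_decidable_last {F : ℕ → ℕ} (hF : Computable F) (hB : BoundP F) :
    ∃ A : List (List ℕ) × List ℕ → Bool, Computable A ∧
      ∀ c, A c = true ↔ ∃ is : List ℕ, is.getLast? = some 1 ∧ LSat c is := by
  obtain ⟨A, hA, h1⟩ := i1_decidable hF hB
  refine ⟨fun c => A (rvC c), hA.comp prim_rvC.to_comp, fun c => ?_⟩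
  rw [h1]
  constructor
  · rintro ⟨is, h2, h3⟩
    exact ⟨is.reverse, by rw [List.getLast?_reverse]; exact h2, (lsat_rvC c is).1 h3⟩
  · rintro ⟨is, h2, h3⟩
    refine ⟨is.reverse, by rw [List.head?_reverse]; exact h2, (lsat_rvC c _).2 ?_⟩
    rw [List.reverse_reverse]
    exact h3

/-- **Decidability of the formulas which begin or end with `1`.** -/
theorem i1_decidable_or {F : ℕ → ℕ} (hF : Computable F) (hB : BoundP F) :
    ∃ A : List (List ℕ) × List ℕ → Bool, Computable A ∧
      ∀ c, A c = true ↔
        ∃ is : List ℕ, (is.head? = some 1 ∨ is.getLast? = some 1) ∧ LSat c is := by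
  obtain ⟨A, hA, h1⟩ := i1_decidable hF hB
  obtain ⟨B, hB', h2⟩ := i1_decidable_last hF hB
  refine ⟨fun c => A c || B c, ?_, fun c => ?_⟩
  · exact Primrec.or.to_comp.comp hA hB'
  · rw [Bool.or_eq_true, h1, h2]
    constructor
    · rintro (⟨is, h3, h4⟩ | ⟨is, h3, h4⟩)
      · exact ⟨is, Or.inl h3, h4⟩
      · exact ⟨is, Or.inr h3, h4⟩
    · rintro ⟨is, h3 | h3, h4⟩
      · exact Or.inl ⟨is, h3, h4⟩
      · exact Or.inr ⟨is, h3, h4⟩

end D0L
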