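import Pool.Agent.H.MP_374efc_lc.Oe.T1

/-!
# MP_374efc_lc: Lemma T, end of the proof
-/

set_option autoImplicit false

namespace D0L

namespace OE

variable {α : Type}

theorem it_prefix {h : α → List α} (t : ℕ) {x y : List α} (hxy : x <+: y) :
    it h t x <+: it h t y := by
  obtain ⟨z, rfl⟩ := hxy
  rw [it_append]
  exact List.prefix_append _ _

theorem pfx_all {h : α → List α} {w : List α} (hp : w <+: it h 1 w) (j : ℕ) :
    it h j w <+: it h (j + 1) w := by
  rw [it_add]
  exact it_prefix j hp

theorem pfx_le {h : α → List α} {w : List α} (hp : w <+: it h 1 w) {i j : ℕ} (hij : i ≤ j) :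
    it h i w <+: it h j w := by
  induction j, hij using Nat.le_induction with
  | base => exact List.prefix_refl _
  | succ j _ ih => exact ih.trans (pfx_all hp j)

theorem lemT0 {h : α → List α} {w : List α} {Λ : ℕ} (hΛ : ∀ a, (h a).length ≤ Λ)
    (hlc : LC h w) (hp : w <+: it h 1 w) :
    ∃ (p : ℕ) (js : List ℕ), (∀ j ∈ js, j ≤ p) ∧
      it h (p + 1) w = it h p w ++ (js.map (fun j => it h j w)).flatten := by
  by_contra hcon
  push Not at hcon
  set ln : ℕ → ℕ := fun j => (it h j w).length with hln
  have hmono : ∀ j, ln j ≤ ln (j + 1) := fun j => (pfx_all hp j).length_le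
  have hstrict : ∀ j, ln j < ln (j + 1) := by
    intro j
    rcases lt_or_eq_of_le (hmono j) with h1 | h1
    · exact h1
    · exfalso
      have h2 := (pfx_all hp j).eq_of_length h1
      apply hcon j [] (by simp)
      simpa using h2.symm
  have hsm : StrictMono ln := strictMono_nat_of_lt_succ hstrict
  have hpos : ∀ j, it h j w ≠ [] := by
    intro j hj
    have h1 := hstrict j
    simp only [hln] at h1
    rw [it_succ, hj, app_nil] at h1
    simp at h1
  have hlnpos : ∀ j, 0 < ln j := fun j => List.length_pos_of_ne_nil (hpos j)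
  have hno : ∀ K y, it h (K + 1) w = it h K w ++ y → ¬ TMs h w (fun _ => True) y := by
    rintro K y hy ⟨js, -, rfl⟩
    refine hcon K js ?_ hy
    intro j hj
    by_contra hjK
    push Not at hjK
    have h0 : it h j w ∈ js.map (fun j => it h j w) := List.mem_map.2 ⟨j, hj, rfl⟩
    have h1 : (it h j w).length ≤ ((js.map (fun j => it h j w)).flatten).length :=
      (List.infix_of_mem_flatten h0).length_le
    have h2 : ln (K + 1) = ln K + ((js.map (fun j => it h j w)).flatten).length := by
      simp only [hln]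
      rw [hy, List.length_append]
    have h3 : ln (K + 1) ≤ ln j := hsm.monotone (by omega)
    have h4 := hlnpos K
    simp only [hln] at h2 h3 h4
    omega
  obtain ⟨N, js, hne, hlt, hrel⟩ := hlc
  obtain ⟨j1, j2, rest, rfl⟩ : ∃ j1 j2 rest, js = j1 :: j2 :: rest := by
    rcases js with _ | ⟨j1, _ | ⟨j2, rest⟩⟩
    · exact absurd rfl hne
    · exfalso
      have h1 := hlt j1 (by simp)
      have h2 : ln N = ln j1 := by
        simp only [hln]
        rw [hrel]
        simp
      have h3 := hsm h1
      omega
    · exact ⟨j1, j2, rest, rfl⟩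
  have hj1 := hlt j1 (by simp)
  have hsh : ∀ m, it h (N + m) w = it h (j1 + m) w ++
      (it h (j2 + m) w ++ (rest.map (fun j => it h (j + m) w)).flatten) := by
    intro m
    rw [rel_shift hrel m]
    simp
  have hdb : ∀ m, 2 * ln m ≤ ln (N + m) := by
    intro m
    have h1 : ln (N + m) = ln (j1 + m) + (ln (j2 + m) +
        ((rest.map (fun j => it h (j + m) w)).flatten).length) := by
      simp only [hln]
      rw [hsh m, List.length_append, List.length_append]
    have h2 : ln m ≤ ln (j1 + m) := hsm.monotone (by omega)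
    have h3 : ln m ≤ ln (j2 + m) := hsm.monotone (by omega)
    omega
  have hdbl : ∀ r m, 2 ^ r * ln m ≤ ln (r * N + m) := by
    intro r
    induction r with
    | zero => intro m; simp
    | succ r ih =>
      intro m
      have h1 := ih m
      have h2 := hdb (r * N + m)
      have h3 : (r + 1) * N + m = N + (r * N + m) := by ring
      rw [h3]
      calc 2 ^ (r + 1) * ln m = 2 * (2 ^ r * ln m) := by ring
        _ ≤ 2 * ln (r * N + m) := Nat.mul_le_mul_left 2 h1
        _ ≤ _ := h2
  -- a level with a long quotient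
  obtain ⟨K, hK, hKlen⟩ : ∃ K, j1 ≤ K ∧ ln K + ln 0 ≤ ln (K + 1) := by
    by_contra hc
    push Not at hc
    have h1 : ∀ i, ln (j1 + i) ≤ ln j1 + i * ln 0 := by
      intro i
      induction i with
      | zero => simp
      | succ i ih =>
        have h2 := hc (j1 + i) (by omega)
        have h3 : (i + 1) * ln 0 = i * ln 0 + ln 0 := by ring
        rw [← add_assoc, h3]
        omega
    set s := 2 * N + 1 with hs
    have h2 := hdbl (2 * s) j1
    have h3 := h1 (2 * s * N)
    rw [Nat.add_comm j1] at h3
    have h4 : ln 0 ≤ ln j1 := hsm.monotone (Nat.zero_le _)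
    have h5 : 2 * s * N * ln 0 ≤ 2 * s * N * ln j1 := Nat.mul_le_mul_left _ h4
    have h6 : 2 ^ (2 * s) * ln j1 ≤ (1 + 2 * s * N) * ln j1 := by
      rw [add_mul, one_mul]
      omega
    have h7 := Nat.le_of_mul_le_mul_right h6 (hlnpos j1)
    have h8 : s < 2 ^ s := Nat.lt_two_pow_self
    have h9 : 2 ^ (2 * s) = 2 ^ s * 2 ^ s := by rw [← pow_add]; congr 1; ring
    have h10 : (s + 1) * (s + 1) ≤ 2 ^ s * 2 ^ s := Nat.mul_le_mul h8 h8
    rw [h9] at h7
    nlinarith
  obtain ⟨y, hy⟩ := pfx_all hp K
  have hwy : w <+: y := by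
    have h1 := hsh (K - j1)
    have h2 : j1 + (K - j1) = K := by omega
    rw [h2] at h1
    set g := it h (j2 + (K - j1)) w ++ (rest.map (fun j => it h (j + (K - j1)) w)).flatten
      with hg
    have h3 : it h (K + 1) w <+: it h (N + (K - j1)) w := pfx_le hp (by omega)
    rw [h1, ← hy] at h3
    have h4 : y <+: g := (List.prefix_append_right_inj _).1 h3
    have h5 : w <+: g := (pfx_le hp (Nat.zero_le _)).trans (List.prefix_append _ _)
    refine List.prefix_of_prefix_length_le h5 h4 ?_
    have h6 : ln (K + 1) = ln K + y.length := by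
      simp only [hln]
      rw [← hy, List.length_append]
    have h7 : ln 0 = w.length := rfl
    omega
  refine dens_false (c := K) hΛ hlt hrel hpos hmono hdb ?_ hno
  intro t
  have h1 : it h K w ++ w <+: it h (K + 1) w := by
    rw [← hy]
    exact (List.prefix_append_right_inj _).2 hwy
  have h2 := it_prefix (h := h) t h1
  rw [it_append, ← it_add, ← it_add] at h2
  have h3 : K + t = t + K := Nat.add_comm _ _
  rw [h3, add_assoc]
  exact h2

/-- **Lemma T.**  A locally catenative system with `h^k(w)` a prefix of `h^(k+1)(w)` has a relation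
`h^(p+1)(w) = h^p(w) * product of h^j(w), j ≤ p`. -/
theorem lemT {h : α → List α} {w : List α} {Λ : ℕ} (hΛ : ∀ a, (h a).length ≤ Λ)
    (hlc : LC h w) {k : ℕ} (hp : it h k w <+: it h (k + 1) w) :
    ∃ (p : ℕ) (js : List ℕ), (∀ j ∈ js, j ≤ p) ∧
      it h (p + 1) w = it h p w ++ (js.map (fun j => it h j w)).flatten := by
  have hp' : it h k w <+: it h 1 (it h k w) := by
    rw [← it_add, Nat.add_comm]
    exact hp
  obtain ⟨p, js, h1, h2⟩ := lemT0 hΛ (hlc.shift k) hp'
  refine ⟨p + k, js.map (· + k), ?_, ?_⟩
  · intro j hj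
    obtain ⟨i, hi, rfl⟩ := List.mem_map.1 hj
    have := h1 i hi
    omega
  · rw [← it_add, ← it_add] at h2
    have h3 : p + k + 1 = p + 1 + k := by omega
    rw [h3, h2, List.map_map]
    congr 2
    apply List.map_congr_left
    intro j _
    simp only [Function.comp]
    rw [it_add]

/-- The form for finite alphabets: `Pfx`. -/
theorem lemT_fin [Fintype α] {h : α → List α} {w : List α} (hlc : LC h w)
    (hp : ∃ k, it h k w <+: it h (k + 1) w) :
    ∃ (p : ℕ) (js : List ℕ), (∀ j ∈ js, j ≤ p) ∧
      it h (p + 1) w = it h p w ++ (js.map (fun j => it h j w)).flatten := by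
  obtain ⟨k, hk⟩ := hp
  exact lemT (Λ := ∑ a, (h a).length) (fun a => Finset.single_le_sum
    (f := fun a => (h a).length) (fun _ _ => Nat.zero_le _) (Finset.mem_univ a)) hlc hk

end OE

end D0L
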