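import Pool.Agent.H.MP_374efc_lc.Zt.Ke

/-!
# MP_374efc_lc: the computability shell for the systems such that some word is an initial or final part of the next one

`BoundP F`: the bound `F` for the systems such that some word is an initial part of the next word.  `boundP_rev`: the same
bound serves the systems such that some word is a final part of the next word.  `oneEnd`: a computable bound `BoundP`
gives a sound algorithm for the locally catenative property which decides it for both kinds of systems.
-/

set_option autoImplicit false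

namespace D0L

/-- Some word is an initial part of the next word. -/
def Pfx {α : Type} (h : α → List α) (w : List α) : Prop := ∃ n, it h n w <+: it h (n + 1) w

/-- Some word is a final part of the next word. -/
def Sfx {α : Type} (h : α → List α) (w : List α) : Prop := ∃ n, it h n w <:+ it h (n + 1) w

/-- A bound for the systems such that some word is an initial part of the next word. -/
def BoundP (F : ℕ → ℕ) : Prop :=
  ∀ (α : Type) [Fintype α] (h : α → List α) (w : List α) (s : ℕ), Sz s h w → Pfx h w →
    LC h w → ∃ p ≤ F s, Rel h w p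

theorem pfx_rev_of_sfx {α : Type} {h : α → List α} {w : List α} (hs : Sfx h w) :
    Pfx (rev h) w.reverse := by
  obtain ⟨n, hn⟩ := hs
  refine ⟨n, ?_⟩
  rw [wf_it_rev, wf_it_rev]
  exact List.reverse_prefix.2 hn

/-- The same bound for the systems such that some word is a final part of the next word. -/
theorem boundP_rev {F : ℕ → ℕ} (hB : BoundP F) (α : Type) [Fintype α] (h : α → List α)
    (w : List α) (s : ℕ) (hs : Sz s h w) (hQ : Sfx h w) (hlc : LC h w) : ∃ p ≤ F s, Rel h w p := by
  obtain ⟨p, hp, hp1⟩ := hB α (rev h) w.reverse s (sz_rev hs) (pfx_rev_of_sfx hQ)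
    (lc_rev_iff.2 hlc)
  exact ⟨p, hp, rel_rev_iff.1 hp1⟩

section val

variable (s : List (List ℕ) × List ℕ)

theorem pfx_val : Pfx (hf s) (wf s) ↔ Pfx (hs s) s.2 := by
  have h1 : ∀ n, it (hf s) n (wf s) <+: it (hf s) (n + 1) (wf s) ↔
      it (hs s) n s.2 <+: it (hs s) (n + 1) s.2 := by
    intro n
    rw [show it (hs s) n s.2 = (it (hf s) n (wf s)).map Fin.val from (it_val s n).symm,
      show it (hs s) (n + 1) s.2 = (it (hf s) (n + 1) (wf s)).map Fin.val from
        (it_val s (n + 1)).symm]
    exact (List.prefix_map_iff_of_injective Fin.val_injective).symm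
  exact exists_congr h1

theorem sfx_val : Sfx (hf s) (wf s) ↔ Sfx (hs s) s.2 := by
  have h1 : ∀ n, it (hf s) n (wf s) <:+ it (hf s) (n + 1) (wf s) ↔
      it (hs s) n s.2 <:+ it (hs s) (n + 1) s.2 := by
    intro n
    rw [show it (hs s) n s.2 = (it (hf s) n (wf s)).map Fin.val from (it_val s n).symm,
      show it (hs s) (n + 1) s.2 = (it (hf s) (n + 1) (wf s)).map Fin.val from
        (it_val s (n + 1)).symm]
    exact (List.suffix_map_iff_of_injective Fin.val_injective).symm
  exact exists_congr h1

end val

/-- **The shell for one end**: a computable bound `BoundP` gives an algorithm which is sound for the locally catenative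
property on all systems and decides it for the systems such that some word is an initial part of the next word or some
word is a final part of the next word. -/
theorem oneEnd {F : ℕ → ℕ} (hF : Computable F) (hB : BoundP F) :
    ∃ A : List (List ℕ) × List ℕ → Bool, Computable A ∧ (∀ c, A c = true → LC (hs c) c.2) ∧
      ∀ c, Pfx (hs c) c.2 ∨ Sfx (hs c) c.2 → (A c = true ↔ LC (hs c) c.2) := by
  obtain ⟨hd, h2⟩ := prim_rel
  set A : List (List ℕ) × List ℕ → Bool := fun c =>
    @decide ((fun x : (List (List ℕ) × List ℕ) × ℕ => Rel (hs x.1) x.1.2 x.2) (c, F (sz c)))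
      (hd (c, F (sz c))) with hA
  have h3 : ∀ c, A c = true ↔ Rel (hs c) c.2 (F (sz c)) := fun c =>
    @decide_eq_true_iff _ (hd (c, F (sz c)))
  refine ⟨A, ?_, ?_, ?_⟩
  · exact h2.to_comp.comp (Computable.id.pair (hF.comp prim_sz.to_comp))
  · intro c hc
    exact ⟨_, (h3 c).1 hc⟩
  · intro c hc
    rw [h3]
    constructor
    · exact fun h => ⟨_, h⟩
    · rintro ⟨p, hp⟩
      have hlc : LC (hf c) (wf c) := ⟨p, (rel_val c p).2 hp⟩
      obtain ⟨q, hq, hq1⟩ : ∃ q ≤ F (sz c), Rel (hf c) (wf c) q := by
        rcases hc with hc | hc
        · exact hB (Fin (nl c)) (hf c) (wf c) (sz c) (sz_ok c) ((pfx_val c).2 hc) hlc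
        · exact boundP_rev hB (Fin (nl c)) (hf c) (wf c) (sz c) (sz_ok c) ((sfx_val c).2 hc) hlc
      exact ((rel_val c q).1 hq1).mono hq

end D0L
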