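import Pool.Agent.H.MP_374efc_lc.Oe.T2
import Pool.Agent.H.MP_374efc_lc.Oe.Sh1
import Pool.Agent.H.MP_374efc_lc.Red.Main

/-!
# MP_374efc_lc: transfer of the prefix property

`T1 h w`: the word `w_(p+1)` is the product of `w_p` and further words of the sequence.  With local catenativity this
is the prefix property `Pfx`; it passes through injective codes.
-/

set_option autoImplicit false

namespace D0L

/-- A relation whose first factor is the word before the left hand side. -/
def T1 {α : Type} (h : α → List α) (w : List α) : Prop :=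
  ∃ (p : ℕ) (js : List ℕ), it h (p + 1) w = ((p :: js).map (fun j => it h j w)).flatten

theorem T1.pfx {α : Type} {h : α → List α} {w : List α} (hT : T1 h w) : Pfx h w := by
  obtain ⟨p, js, h1⟩ := hT
  refine ⟨p, ?_⟩
  rw [h1, List.map_cons, List.flatten_cons]
  exact List.prefix_append _ _

theorem T1.of_pfx {α : Type} [Fintype α] {h : α → List α} {w : List α} (hlc : LC h w)
    (hp : Pfx h w) : T1 h w := by
  obtain ⟨p, js, -, h1⟩ := OE.lemT_fin hlc hp
  refine ⟨p, js, ?_⟩
  rw [h1, List.map_cons, List.flatten_cons]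

theorem T1.shift {α : Type} {h : α → List α} {w : List α} (hT : T1 h w) (s : ℕ) :
    T1 h (it h s w) := by
  obtain ⟨p, js, h1⟩ := hT
  refine ⟨p, js, ?_⟩
  have h2 := rel_shift h1 s
  rw [← it_add, show p + 1 + s = p + 1 + s from rfl, h2]
  congr 1
  apply List.map_congr_left
  intro j _
  rw [← it_add]

theorem T1.code {α β : Type} {h : α → List α} {k : β → List β} {c : β → List α}
    (hc : Function.Injective (app c)) (hk : ∀ b, app h (c b) = app c (k b)) {w : List α}
    {v : List β} (hw : w = app c v) (hT : T1 h w) : T1 k v := by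
  subst hw
  obtain ⟨p, js, h3⟩ := hT
  refine ⟨p, js, ?_⟩
  apply hc
  rw [it_code hk, h3, app_flatten, List.map_map]
  congr 1
  apply List.map_congr_left
  intro j _
  simp only [Function.comp]
  rw [it_code hk]

theorem Pfx.gf {α δ : Type} {h : α → List α} {f : α → List δ} {g : δ → List α}
    (hfg : ∀ a, app g (f a) = h a) {w : List α} (hp : Pfx h w) :
    Pfx (fun d => app f (g d)) (app f w) := by
  obtain ⟨n, t, ht⟩ := hp
  refine ⟨n, app f t, ?_⟩
  rw [it_gf hfg, it_gf hfg, ← app_append, ht]

theorem Pfx.le {α : Type} {h : α → List α} {w : List α} {n : ℕ}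
    (hp : it h n w <+: it h (n + 1) w) {i j : ℕ} (hi : n ≤ i) (hij : i ≤ j) :
    it h i w <+: it h j w := by
  obtain ⟨i', rfl⟩ := Nat.exists_eq_add_of_le' hi
  obtain ⟨j', rfl⟩ := Nat.exists_eq_add_of_le' (hi.trans hij)
  rw [it_add, it_add]
  refine OE.pfx_le ?_ (by omega)
  rw [← it_add, Nat.add_comm 1 n]
  exact hp

theorem Pfx.orbit {α β : Type} {h : α → List α} {w : List α} {g : β → List β} {u : List β}
    {ι : β → α} {t m : ℕ} (hι : Function.Injective ι) (ht : 0 < t)
    (hg : ∀ b, (g b).map ι = it h t [ι b]) (hu : u.map ι = it h m w) (hp : Pfx h w) :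
    Pfx g u := by
  obtain ⟨n, hn⟩ := hp
  refine ⟨n, ?_⟩
  rw [← List.prefix_map_iff_of_injective hι, it_map hg, it_map hg, hu, ← it_add, ← it_add]
  have h1 : n ≤ t * n := Nat.le_mul_of_pos_left n ht
  have h2 : t * n ≤ t * (n + 1) := Nat.mul_le_mul_left _ (by omega)
  exact Pfx.le hn (by omega) (by omega)

end D0L
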