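import Pool.Agent.H.MP_374efc_lc.Oe.Ch2
import Pool.Agent.H.MP_374efc_lc.Asm.Elem
import Pool.Agent.H.MP_374efc_lc.Asm.Free
import Pool.Agent.H.MP_374efc_lc.Ex.NF1

/-!
# MP_374efc_lc: the general reduction for the systems with the prefix property

The steps of `Red/Main.lean` and `Asm/Elem.lean` with the additional condition `Pfx` (some word is an initial part of the
next one).
-/

set_option autoImplicit false

namespace D0L

/-- The core case for elementary morphisms with the prefix property. -/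
def CoreBoundEP (F : ℕ → ℕ) : Prop :=
  ∀ (α : Type) [Fintype α] (h : α → List α) (w : List α) (s : ℕ), Sz s h w → Elem h → Prim h →
    ¬ Per h → Legal h w → w ≠ [] → Pfx h w → LC h w → ∃ p ≤ F s, Rel h w p

/-- Elementary primitive systems with the prefix property. -/
theorem bd_elemP (F : ℕ → ℕ) (hc : CoreBoundEP F) :
    BdOn (fun _ _ h w => Elem h ∧ Prim h ∧ Pfx h w) (fun s => F s + s + 1) := by
  intro α _ h w s hs hq hlc
  change ∃ p ≤ F s + s + 1, Rel h w p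
  obtain ⟨he, hp, hpf⟩ := hq
  have hg := he.good
  by_cases hw : w = []
  · subst hw
    exact ⟨1, by omega, rel_nil h⟩
  by_cases hgr : ∀ a, Gr h a
  · have hl := legal hg.ne hg.inj hw hlc hgr
    by_cases hper : Per h
    · obtain ⟨σ, hσ⟩ := per1 hg hp hgr hper
      obtain ⟨p, h1, h2⟩ := per2 hσ hgr hl hw hlc
      have := hs.1
      exact ⟨p, by omega, h2⟩
    · obtain ⟨p, h1, h2⟩ := hc α h w s hs he hp hper hl hw hpf hlc
      exact ⟨p, by omega, h2⟩
  · push Not at hgr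
    obtain ⟨a, ha⟩ := hgr
    exact ⟨1, by omega, rel_of_prim_bdd hg.ne hp ha w⟩

/-- Step D with the prefix property: all letters grow. -/
theorem bd_growP (F : ℕ → ℕ) (hb : BdOn (fun _ _ h w => Prim h ∧ Pfx h w) F) :
    BdOn (fun _ _ h w => (∀ a, h a ≠ []) ∧ (∀ a, Gr h a) ∧ w ≠ [] ∧ Pfx h w)
      (fun s => 2 ^ s * F (tO s) + 2 ^ (s + 1)) := by
  intro α _ h w s hs hq hlc
  change ∃ p ≤ 2 ^ s * F (tO s) + 2 ^ (s + 1), Rel h w p
  obtain ⟨hne, hgr, hw, hpf⟩ := hq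
  obtain ⟨β, _, g, u, ι, t, m, hι, ht0, ht, hm, hg, hu, hlc', hfull, hmix, hrel⟩ :=
    orbit_step hs hne hw hlc
  have hs' := sz_orbit hs hι ht hm hg hu
  have hp : Prim g := by
    refine ⟨2 ^ Fintype.card β, by positivity, ?_⟩
    intro a b
    exact hmix a (gr_of_map hne ht0 hg (hgr _)) _ le_rfl b
  obtain ⟨p, h1, h2⟩ := hb β g u (tO s) hs' ⟨hp, hpf.orbit hι ht0 hg hu⟩ hlc'
  refine ⟨t * p + m, ?_, hrel p h2⟩
  have h3 := Nat.mul_le_mul ht h1
  omega

/-- Step B with the prefix property: injective systems. -/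
theorem bd_injP (F : ℕ → ℕ) (hb : BdOn (fun _ _ h w => Mix h w ∧ Pfx h w) F) :
    BdOn (fun _ _ h w => Function.Injective (app h) ∧ Pfx h w)
      (fun s => 2 ^ s * F (tO s) + 2 ^ (s + 1) + (s + 1) ^ (s + 1)) := by
  intro α _ h w s hs hq hlc
  change ∃ p ≤ 2 ^ s * F (tO s) + 2 ^ (s + 1) + (s + 1) ^ (s + 1), Rel h w p
  obtain ⟨inj, hpf⟩ := hq
  have hne := ne_of_inj inj
  by_cases hbw : Bw h w
  · obtain ⟨p, h1, h2⟩ := rel_of_bw hs inj hbw
    exact ⟨p, h1.trans (Nat.le_add_left _ _), h2⟩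
  have hw : w ≠ [] := by
    rintro rfl
    exact hbw (by simp [Bw])
  obtain ⟨β, _, g, u, ι, t, m, hι, ht0, ht, hm, hg, hu, hlc', hfull, hmix, hrel⟩ :=
    orbit_step hs hne hw hlc
  have hs' := sz_orbit hs hι ht hm hg hu
  have hM : Mix g u := by
    refine ⟨inj_of_map inj hι hg, hfull, hmix, ?_, hlc'⟩
    simp only [Bw, not_forall, not_not] at hbw
    obtain ⟨a, ha, ha'⟩ := hbw
    obtain ⟨b, hb1, hb2⟩ := (gr_iff hne a m).1 ha'
    have h1 : b ∈ u.map ι := by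
      rw [hu, it_eq_app, mem_app]
      exact ⟨a, ha, hb1⟩
    rw [List.mem_map] at h1
    obtain ⟨c, -, rfl⟩ := h1
    exact ⟨c, gr_of_map hne ht0 hg hb2⟩
  obtain ⟨p, h1, h2⟩ := hb β g u (tO s) hs' ⟨hM, hpf.orbit hι ht0 hg hu⟩ hlc'
  refine ⟨t * p + m, ?_, hrel p h2⟩
  have h3 := Nat.mul_le_mul ht h1
  omega

/-- **The general reduction with the prefix property.** -/
theorem main4P (F : ℕ → ℕ) (hF : Computable F) (hc : CoreBoundEP F) :
    ∃ F', Computable F' ∧ BoundP F' := by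
  obtain ⟨G, hG, hFG⟩ := CM.hull hF
  have hcG : CoreBoundEP G := by
    intro α _ h w s h1 h2 h3 h4 h5 h6 h7 h10
    obtain ⟨p, h8, h9⟩ := hc α h w s h1 h2 h3 h4 h5 h6 h7 h10
    exact ⟨p, h8.trans (hFG s), h9⟩
  obtain ⟨tz, htz, hz⟩ := zrecP
  have two : CM (fun s => 2 ^ s) := CM.pow (CM.const 1) CM.id
  have two' : CM (fun s => 2 ^ (s + 1)) := CM.pow (CM.const 1) (CM.add CM.id (CM.const 1))
  have ctO : CM tO := CM.pow CM.id (CM.add two' (CM.const 1))
  have selfpow : CM (fun s => (s + 1) ^ 2 ^ s) := CM.pow CM.id two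
  -- F
  set F1 : ℕ → ℕ := fun s => G s + s + 1 with hF1
  have c1 : CM F1 := CM.add (CM.add hG CM.id) (CM.const 1)
  have b1 : BdOn (fun _ _ h w => Elem h ∧ Prim h ∧ Pfx h w) F1 := bd_elemP G hcG
  -- E
  set F2 : ℕ → ℕ := fun s => F1 ((s + 1) ^ 2 ^ s) + s with hF2
  have c2 : CM F2 := CM.add (CM.comp' c1 selfpow) CM.id
  have b2 : BdOn (fun _ _ h w => Prim h ∧ Pfx h w) F2 := by
    intro α _ h w s hs hq hlc
    obtain ⟨p, h1, h2⟩ := bd_simpE (fun _ _ h w => Prim h ∧ Pfx h w)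
      (fun α δ _ _ h f g w h1 h2 h3 h4 => ⟨prim_gf h1 h2 h3 h4.1, h4.2.gf h1⟩)
      F1 c1.mono b1 α h w s hs hq hlc
    refine ⟨p, h1.trans ?_, h2⟩
    have := c1.mono (Nat.pow_le_pow_left (Nat.le_succ s) (2 ^ s))
    simp only [hF2]
    exact Nat.add_le_add_right this s
  -- D
  set F3 : ℕ → ℕ := fun s => 2 ^ s * F2 (tO s) + 2 ^ (s + 1) with hF3
  have c3 : CM F3 := CM.add (CM.mul two (CM.comp' c2 ctO)) two'
  have b3 := bd_growP F2 b2
  -- C
  set F4 : ℕ → ℕ := fun s => F3 (tz s) + s with hF4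
  have c4 : CM F4 := CM.add (CM.comp' c3 htz) CM.id
  have b4 : BdOn (fun _ _ h w => Mix h w ∧ Pfx h w) F4 := by
    intro α _ h w s hs hq hlc
    change ∃ p ≤ F3 (tz s) + s, Rel h w p
    obtain ⟨β, _, k, v, h1, h2, h3, h4, h5, h9, h6⟩ := hz α h w s hs hq.1
    obtain ⟨p, h7, h8⟩ := b3 β k v (tz s) h1 ⟨h3, h4, h5, h9 hq.2⟩ h2
    exact ⟨p + s, Nat.add_le_add_right h7 s, h6 p h8⟩
  -- B
  set F5 : ℕ → ℕ := fun s => 2 ^ s * F4 (tO s) + 2 ^ (s + 1) + (s + 1) ^ (s + 1) with hF5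
  have c5 : CM F5 := CM.add (CM.add (CM.mul two (CM.comp' c4 ctO)) two')
    (CM.pow CM.id (CM.add CM.id (CM.const 1)))
  have b5 : BdOn (fun _ _ h w => Function.Injective (app h) ∧ Pfx h w) F5 := bd_injP F4 b4
  -- A
  refine ⟨fun s => F5 ((s + 1) ^ 2 ^ s) + s,
    (CM.add (CM.comp' c5 selfpow) CM.id).comp, ?_⟩
  intro α _ h w s hs hpf hlc
  obtain ⟨p, h1, h2⟩ := bd_simp (fun _ _ h w => Pfx h w)
    (fun α δ _ _ h f g w h1 h2 h3 h4 => h4.gf h1) F5 c5.mono
    (fun α _ h w s hs hq hlc => b5 α h w s hs ⟨hq.1.inj, hq.2⟩ hlc) α h w s hs hpf hlc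
  refine ⟨p, h1.trans ?_, h2⟩
  have := c5.mono (Nat.pow_le_pow_left (Nat.le_succ s) (2 ^ s))
  exact Nat.add_le_add_right this s

/-- **Assembly with the prefix property.** -/
theorem core_ofP (b : ℕ → ℕ) (hb : FreeBound b) : CoreBoundEP (fun s => b s + 1) := by
  intro α _ h w s hs he hp hper hl hw hpf hlc
  change ∃ p ≤ b s + 1, Rel h w p
  by_cases hgr : ∀ a, Gr h a
  · obtain ⟨n, t, H, b0, N, hcod, hnf, hrel⟩ := exists_nf he.inj hgr hw hlc
    have h1 : n ≤ b s := hb α h w s hs he hp hper hl hw n t H b0 hcod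
    have hT : T1 H b0 := T1.code hcod.inj hcod.comm hcod.ax.symm (T1.of_pfx hlc hpf)
    obtain ⟨J, hJ⟩ := hT.pfx
    have h2 : N ≤ n := hnf.le_of_letters (Star.lett_of_pfx hnf hJ)
    exact ⟨N, by omega, (hrel N).2 hnf.rel⟩
  · push Not at hgr
    obtain ⟨a, ha⟩ := hgr
    exact ⟨1, by omega, rel_of_prim_bdd he.good.ne hp ha w⟩

/-- **A computable bound for all locally catenative systems such that some word is an initial part of the next word.** -/
theorem boundP_all : ∃ F, Computable F ∧ BoundP F := by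
  obtain ⟨G, hG, hbG⟩ := CM.hull (freeF_computable)
  have hbG' : FreeBound G := by
    intro α _ h w s h1 h2 h3 h4 h5 h6 n t H b0 h7
    exact (freeBound α h w s h1 h2 h3 h4 h5 h6 n t H b0 h7).trans (hbG s)
  exact main4P (fun s => G s + 1) (CM.add hG (CM.const 1)).comp (core_ofP G hbG')

end D0L
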