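import Pool.Agent.H.MP_374efc_lc.Oe.Sh3
import Pool.Agent.H.MP_374efc_lc.Oe.Ch3
import Pool.Agent.H.MP_374efc_lc.Zt.Kg

/-!
# MP_374efc_lc: systems with a formula which begins or ends with `1`

`i1_iff`: a D0L system satisfies a locally catenative formula which begins with `1` iff it is locally catenative and
some word is an initial part of the next word.  `i1_last_iff`: the mirror statement.  `oneEnd_decidable`: this is
decidable.
-/

set_option autoImplicit false

namespace D0L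

theorem i1_iff (c : List (List ℕ) × List ℕ) :
    (∃ is : List ℕ, is.head? = some 1 ∧ LSat c is) ↔ LC (hs c) c.2 ∧ Pfx (hs c) c.2 := by
  rw [← rfi_iff_lsat]
  constructor
  · rintro ⟨p, hp⟩
    exact ⟨lc_of_rfi hp, pfx_of_rfi hp⟩
  · rintro ⟨h1, h2⟩
    exact rfi_of_pfx h1 h2

theorem pfx_rev_iff {α : Type} {h : α → List α} {w : List α} :
    Pfx (rev h) w.reverse ↔ Sfx h w := by
  constructor
  · rintro ⟨n, hn⟩
    refine ⟨n, ?_⟩
    rw [wf_it_rev, wf_it_rev] at hn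
    exact List.reverse_prefix.1 hn
  · exact pfx_rev_of_sfx

theorem i1_last_iff (c : List (List ℕ) × List ℕ) :
    (∃ is : List ℕ, is.getLast? = some 1 ∧ LSat c is) ↔ LC (hs c) c.2 ∧ Sfx (hs c) c.2 := by
  have h1 : (∃ is : List ℕ, is.getLast? = some 1 ∧ LSat c is) ↔
      ∃ is : List ℕ, is.head? = some 1 ∧ LSat (rvC c) is := by
    constructor
    · rintro ⟨is, h2, h3⟩
      refine ⟨is.reverse, by rw [List.head?_reverse]; exact h2, (lsat_rvC c _).2 ?_⟩
      rw [List.reverse_reverse]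
      exact h3
    · rintro ⟨is, h2, h3⟩
      exact ⟨is.reverse, by rw [List.getLast?_reverse]; exact h2, (lsat_rvC c is).1 h3⟩
  rw [h1, i1_iff, hs_rvC]
  change LC (rev (hs c)) c.2.reverse ∧ Pfx (rev (hs c)) c.2.reverse ↔ _
  rw [lc_rev_iff, pfx_rev_iff]

/-- **Decidability for one end.** -/
theorem oneEnd_decidable :
    ∃ A : List (List ℕ) × List ℕ → Bool, Computable A ∧ ∀ c,
      (A c = true ↔ ∃ is : List ℕ, (is.head? = some 1 ∨ is.getLast? = some 1) ∧ LSat c is) ∧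
      (A c = true ↔ LC (hs c) c.2 ∧ (Pfx (hs c) c.2 ∨ Sfx (hs c) c.2)) := by
  obtain ⟨F, hF, hB⟩ := boundP_all
  obtain ⟨A, hA, h1⟩ := i1_decidable_or hF hB
  refine ⟨A, hA, fun c => ⟨h1 c, (h1 c).trans ?_⟩⟩
  rw [and_or_left, ← i1_iff, ← i1_last_iff]
  constructor
  · rintro ⟨is, h2 | h2, h3⟩
    · exact Or.inl ⟨is, h2, h3⟩
    · exact Or.inr ⟨is, h2, h3⟩
  · rintro (⟨is, h2, h3⟩ | ⟨is, h2, h3⟩)
    · exact ⟨is, Or.inl h2, h3⟩
    · exact ⟨is, Or.inr h2, h3⟩

end D0L
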