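import Pool.Agent.H.MP_374efc_lc.Oe.Gz
import Pool.Agent.H.MP_374efc_lc.Asm.Elem
import Pool.Agent.H.MP_374efc_lc.Asm.Free

/-!
# MP_374efc_lc: the general reduction for a class of systems and a type of relations

`ClQ Q`: the class `Q` passes through the steps of the reduction.  `ClR R`: relations of the type `R` come back.
`boundQ`: if in the normal forms of the class `Q` there is a relation of type `R` at a level at most `n`, then there is a
computable bound for the least level of such a relation for all locally catenative systems of the class.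
-/

set_option autoImplicit false

namespace D0L

/-- A class of systems which passes through the steps of the reduction. -/
structure ClQ (Q : ∀ (α : Type) [Fintype α], (α → List α) → List α → Prop) : Prop where
  gf : ∀ (α δ : Type) [Fintype α] [Fintype δ] (h : α → List α) (f : α → List δ)
    (g : δ → List α) (w : List α), (∀ a, app g (f a) = h a) → (∀ d, g d ≠ []) →
    (∀ d, ∃ a, d ∈ f a) → Q α h w → Q δ (fun d => app f (g d)) (app f w)
  orbit : ∀ (α β : Type) [Fintype α] [Fintype β] (h : α → List α) (w : List α) (g : β → List β)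
    (u : List β) (ι : β → α) (t m : ℕ), Function.Injective ι → 0 < t →
    (∀ b, (g b).map ι = it h t [ι b]) → u.map ι = it h m w →
    (∀ (k d : ℕ) (js : List ℕ), (∀ j ∈ js, j < d) →
      it h (k + d) w = (js.map (fun j => it h (k + j) w)).flatten → ∀ j ∈ js, t ∣ d - j) →
    Q α h w → Q β g u
  shift : ∀ (α : Type) [Fintype α] (h : α → List α) (w : List α) (s : ℕ), Q α h w →
    Q α h (it h s w)
  code : ∀ (α β : Type) [Fintype α] [Fintype β] (h : α → List α) (k : β → List β)
    (c : β → List α) (v : List β), Function.Injective (app c) →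
    (∀ b, app h (c b) = app c (k b)) → Q α h (app c v) → Q β k v

/-- A type of relations which comes back through the steps of the reduction. -/
structure ClR (R : ∀ (α : Type), (α → List α) → List α → ℕ → Prop) : Prop where
  nil : ∀ (α : Type) (h : α → List α), R α h [] 1
  bw : ∀ (α : Type) (h : α → List α) (w : List α) (i j : ℕ), i < j → it h i w = it h j w →
    R α h w j
  one : ∀ (α : Type) (h : α → List α) (w : List α), Rel h w 1 → R α h w 1
  per : ∀ (α : Type) [Fintype α] (h : α → List α) (w : List α) (σ : α → α), Cyc h σ →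
    (∀ a, Gr h a) → Legal h w → w ≠ [] → LC h w → ∃ p ≤ Fintype.card α, R α h w p
  gf : ∀ (α δ : Type) (h : α → List α) (f : α → List δ) (g : δ → List α) (w : List α) (p : ℕ),
    (∀ a, app g (f a) = h a) → R δ (fun d => app f (g d)) (app f w) p → R α h w (p + 1)
  orbit : ∀ (α β : Type) (h : α → List α) (w : List α) (g : β → List β) (u : List β)
    (ι : β → α) (t m p : ℕ), 0 < t → (∀ b, (g b).map ι = it h t [ι b]) → u.map ι = it h m w →
    R β g u p → R α h w (t * p + m)
  code : ∀ (α β : Type) (h : α → List α) (k : β → List β) (c : β → List α) (v : List β) (p : ℕ),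
    (∀ b, app h (c b) = app c (k b)) → R β k v p → R α h (app c v) p
  unshift : ∀ (α : Type) (h : α → List α) (w : List α) (s p : ℕ), R α h (it h s w) p →
    R α h w (p + s)

/-- A bound `F` for the relations of type `R` of the systems in the class `Q`. -/
def BdQ (R : ∀ (α : Type), (α → List α) → List α → ℕ → Prop)
    (Q : ∀ (α : Type) [Fintype α], (α → List α) → List α → Prop) (F : ℕ → ℕ) : Prop :=
  ∀ (α : Type) [Fintype α] (h : α → List α) (w : List α) (s : ℕ), Sz s h w → Q α h w → LC h w →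
    ∃ p ≤ F s, R α h w p

section

variable {Q : ∀ (α : Type) [Fintype α], (α → List α) → List α → Prop}
  {R : ∀ (α : Type), (α → List α) → List α → ℕ → Prop}

/-- Simplification. -/
theorem bq_simp (hR : ClR R)
    (hQ : ∀ (α δ : Type) [Fintype α] [Fintype δ] (h : α → List α) (f : α → List δ)
      (g : δ → List α) (w : List α), (∀ a, app g (f a) = h a) → (∀ d, g d ≠ []) →
      (∀ d, ∃ a, d ∈ f a) → Q α h w → Q δ (fun d => app f (g d)) (app f w))
    (F : ℕ → ℕ) (hF : Monotone F)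
    (hb : BdQ R (fun α _ h w => Elem h ∧ Q α h w) F) :
    BdQ R Q (fun s => F (s ^ 2 ^ s) + s) := by
  have key : ∀ n : ℕ, ∀ (α : Type) [Fintype α] (h : α → List α) (w : List α) (s : ℕ),
      Fintype.card α ≤ n → Sz s h w → Q α h w → LC h w →
        ∃ p ≤ F (s ^ 2 ^ n) + n, R α h w p := by
    intro n
    induction n with
    | zero =>
      intro α _ h w s hn hs hq hlc
      by_cases hg : Elem h
      · obtain ⟨p, h1, h2⟩ := hb α h w s hs ⟨hg, hq⟩ hlc
        exact ⟨p, by simpa using h1, h2⟩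
      · exfalso
        apply hg
        rintro ⟨δ, _, f, g, h1, -⟩
        omega
    | succ n ih =>
      intro α _ h w s hn hs hq hlc
      have hpow : ∀ i : ℕ, s ≤ s ^ 2 ^ i := by
        intro i
        exact Nat.le_self_pow (by positivity) s
      by_cases hg : Elem h
      · obtain ⟨p, h1, h2⟩ := hb α h w s hs ⟨hg, hq⟩ hlc
        have := hF (hpow (n + 1))
        exact ⟨p, by omega, h2⟩
      · rw [Elem, not_not] at hg
        obtain ⟨δ, hδ, f, g, h1, h2, h3, h4⟩ := hg
        have h5 := simp_sizes h1 h2 h3 h4 hs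
        have h6 := hQ α δ h f g w h2 h3 h4 hq
        have h7 : LC (fun d => app f (g d)) (app f w) := by
          obtain ⟨p, hp⟩ := hlc
          exact ⟨p, rel_gf h2 hp⟩
        obtain ⟨p, h8, h9⟩ := ih δ _ _ (s * s) (by omega) h5 h6 h7
        refine ⟨p + 1, ?_, hR.gf α δ h f g w p h2 h9⟩
        have h10 : (s * s) ^ 2 ^ n = s ^ 2 ^ (n + 1) := by
          rw [← pow_two, ← pow_mul, pow_succ']
        rw [h10] at h8
        omega
  intro α _ h w s hs hq hlc
  exact key s α h w s hs.1 hs hq hlc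

/-- The core case. -/
def CoreQ (R : ∀ (α : Type), (α → List α) → List α → ℕ → Prop)
    (Q : ∀ (α : Type) [Fintype α], (α → List α) → List α → Prop) (F : ℕ → ℕ) : Prop :=
  ∀ (α : Type) [Fintype α] (h : α → List α) (w : List α) (s : ℕ), Sz s h w → Elem h → Prim h →
    ¬ Per h → Legal h w → w ≠ [] → Q α h w → LC h w → ∃ p ≤ F s, R α h w p

/-- Elementary primitive systems. -/
theorem bq_elem (hR : ClR R) (F : ℕ → ℕ) (hc : CoreQ R Q F) :
    BdQ R (fun α _ h w => Elem h ∧ Prim h ∧ Q α h w) (fun s => F s + s + 1) := by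
  intro α _ h w s hs hq hlc
  change ∃ p ≤ F s + s + 1, R α h w p
  obtain ⟨he, hp, hq⟩ := hq
  have hg := he.good
  by_cases hw : w = []
  · subst hw
    exact ⟨1, by omega, hR.nil α h⟩
  by_cases hgr : ∀ a, Gr h a
  · have hl := legal hg.ne hg.inj hw hlc hgr
    by_cases hper : Per h
    · obtain ⟨σ, hσ⟩ := per1 hg hp hgr hper
      obtain ⟨p, h1, h2⟩ := hR.per α h w σ hσ hgr hl hw hlc
      have := hs.1
      exact ⟨p, by omega, h2⟩
    · obtain ⟨p, h1, h2⟩ := hc α h w s hs he hp hper hl hw hq hlc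
      exact ⟨p, by omega, h2⟩
  · push Not at hgr
    obtain ⟨a, ha⟩ := hgr
    exact ⟨1, by omega, hR.one α h w (rel_of_prim_bdd hg.ne hp ha w)⟩

/-- All letters grow. -/
theorem bq_grow (hQ : ClQ Q) (hR : ClR R) (F : ℕ → ℕ)
    (hb : BdQ R (fun α _ h w => Prim h ∧ Q α h w) F) :
    BdQ R (fun α _ h w => (∀ a, h a ≠ []) ∧ (∀ a, Gr h a) ∧ w ≠ [] ∧ Q α h w)
      (fun s => 2 ^ s * F (tO s) + 2 ^ (s + 1)) := by
  intro α _ h w s hs hq hlc
  change ∃ p ≤ 2 ^ s * F (tO s) + 2 ^ (s + 1), R α h w p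
  obtain ⟨hne, hgr, hw, hq⟩ := hq
  obtain ⟨β, _, g, u, ι, t, m, hι, ht0, ht, hm, hg, hu, hlc', hfull, hmix, -, hT⟩ :=
    orbit_stepT hs hne hw hlc
  have hs' := sz_orbit hs hι ht hm hg hu
  have hp : Prim g := by
    refine ⟨2 ^ Fintype.card β, by positivity, ?_⟩
    intro a b
    exact hmix a (gr_of_map hne ht0 hg (hgr _)) _ le_rfl b
  obtain ⟨p, h1, h2⟩ := hb β g u (tO s) hs'
    ⟨hp, hQ.orbit α β h w g u ι t m hι ht0 hg hu hT hq⟩ hlc'
  refine ⟨t * p + m, ?_, hR.orbit α β h w g u ι t m p ht0 hg hu h2⟩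
  have h3 := Nat.mul_le_mul ht h1
  omega

/-- Injective systems. -/
theorem bq_inj (hQ : ClQ Q) (hR : ClR R) (F : ℕ → ℕ)
    (hb : BdQ R (fun α _ h w => Mix h w ∧ Q α h w) F) :
    BdQ R (fun α _ h w => Function.Injective (app h) ∧ Q α h w)
      (fun s => 2 ^ s * F (tO s) + 2 ^ (s + 1) + (s + 1) ^ (s + 1)) := by
  intro α _ h w s hs hq hlc
  change ∃ p ≤ 2 ^ s * F (tO s) + 2 ^ (s + 1) + (s + 1) ^ (s + 1), R α h w p
  obtain ⟨inj, hq⟩ := hq
  have hne := ne_of_inj inj
  by_cases hbw : Bw h w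
  · obtain ⟨i, j, hij, hjs, he⟩ : ∃ i j, i < j ∧ j ≤ (s + 1) ^ (s + 1) ∧ it h i w = it h j w := by
      obtain ⟨h1, h2, h3⟩ := hs
      let f : Fin ((s + 1) ^ (s + 1) + 1) → List.Vector α w.length :=
        fun n => ⟨it h n w, (bw_it inj hbw n).2⟩
      have hcard : Fintype.card (List.Vector α w.length) <
          Fintype.card (Fin ((s + 1) ^ (s + 1) + 1)) := by
        rw [card_vector, Fintype.card_fin]
        have h4 : Fintype.card α ^ w.length ≤ (s + 1) ^ w.length :=
          Nat.pow_le_pow_left (by omega) _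
        have h5 : (s + 1) ^ w.length ≤ (s + 1) ^ (s + 1) :=
          Nat.pow_le_pow_right (by omega) (by omega)
        omega
      obtain ⟨i, j, hij, he⟩ := Fintype.exists_ne_map_eq_of_card_lt f hcard
      have he' : it h i w = it h j w := congrArg Subtype.val he
      have hi := i.2
      have hj := j.2
      rcases lt_or_gt_of_ne hij with hlt | hlt
      · exact ⟨i, j, hlt, by omega, he'⟩
      · exact ⟨j, i, hlt, by omega, he'.symm⟩
    exact ⟨j, hjs.trans (Nat.le_add_left _ _), hR.bw α h w i j hij he⟩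
  have hw : w ≠ [] := by
    rintro rfl
    exact hbw (by simp [Bw])
  obtain ⟨β, _, g, u, ι, t, m, hι, ht0, ht, hm, hg, hu, hlc', hfull, hmix, -, hT⟩ :=
    orbit_stepT hs hne hw hlc
  have hs' := sz_orbit hs hι ht hm hg hu
  have hM : Mix g u := by
    refine ⟨inj_of_map inj hι hg, hfull, hmix, ?_, hlc'⟩
    simp only [Bw, not_forall, not_not] at hbw
    obtain ⟨a, ha, ha'⟩ := hbw
    obtain ⟨b, hb1, hb2⟩ := (gr_iff hne a m).1 ha'
    have h1 : b ∈ u.map ι := by
      rw [hu, it_eq_app, mem_app]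
      exact ⟨a, ha, hb1⟩
    rw [List.mem_map] at h1
    obtain ⟨c, -, rfl⟩ := h1
    exact ⟨c, gr_of_map hne ht0 hg hb2⟩
  obtain ⟨p, h1, h2⟩ := hb β g u (tO s) hs'
    ⟨hM, hQ.orbit α β h w g u ι t m hι ht0 hg hu hT hq⟩ hlc'
  refine ⟨t * p + m, ?_, hR.orbit α β h w g u ι t m p ht0 hg hu h2⟩
  have h3 := Nat.mul_le_mul ht h1
  omega

/-- **The general reduction for a class.** -/
theorem main4Q (hQ : ClQ Q) (hR : ClR R) (F : ℕ → ℕ) (hF : Computable F) (hc : CoreQ R Q F) :
    ∃ F', Computable F' ∧ BdQ R Q F' := by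
  obtain ⟨G, hG, hFG⟩ := CM.hull hF
  have hcG : CoreQ R Q G := by
    intro α _ h w s h1 h2 h3 h4 h5 h6 h7 h10
    obtain ⟨p, h8, h9⟩ := hc α h w s h1 h2 h3 h4 h5 h6 h7 h10
    exact ⟨p, h8.trans (hFG s), h9⟩
  obtain ⟨tz, htz, hz⟩ := zrecC
  have two : CM (fun s => 2 ^ s) := CM.pow (CM.const 1) CM.id
  have two' : CM (fun s => 2 ^ (s + 1)) := CM.pow (CM.const 1) (CM.add CM.id (CM.const 1))
  have ctO : CM tO := CM.pow CM.id (CM.add two' (CM.const 1))
  have selfpow : CM (fun s => (s + 1) ^ 2 ^ s) := CM.pow CM.id two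
  -- F
  set F1 : ℕ → ℕ := fun s => G s + s + 1 with hF1
  have c1 : CM F1 := CM.add (CM.add hG CM.id) (CM.const 1)
  have b1 : BdQ R (fun α _ h w => Elem h ∧ Prim h ∧ Q α h w) F1 := bq_elem hR G hcG
  -- E
  set F2 : ℕ → ℕ := fun s => F1 ((s + 1) ^ 2 ^ s) + s with hF2
  have c2 : CM F2 := CM.add (CM.comp' c1 selfpow) CM.id
  have b2 : BdQ R (fun α _ h w => Prim h ∧ Q α h w) F2 := by
    intro α _ h w s hs hq hlc
    obtain ⟨p, h1, h2⟩ := bq_simp (Q := fun α _ h w => Prim h ∧ Q α h w) hR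
      (fun α δ _ _ h f g w h1 h2 h3 h4 =>
        ⟨prim_gf h1 h2 h3 h4.1, hQ.gf α δ h f g w h1 h2 h3 h4.2⟩)
      F1 c1.mono b1 α h w s hs hq hlc
    refine ⟨p, h1.trans ?_, h2⟩
    have := c1.mono (Nat.pow_le_pow_left (Nat.le_succ s) (2 ^ s))
    simp only [hF2]
    exact Nat.add_le_add_right this s
  -- D
  set F3 : ℕ → ℕ := fun s => 2 ^ s * F2 (tO s) + 2 ^ (s + 1) with hF3
  have c3 : CM F3 := CM.add (CM.mul two (CM.comp' c2 ctO)) two'
  have b3 := bq_grow hQ hR F2 b2
  -- C
  set F4 : ℕ → ℕ := fun s => F3 (tz s) + s with hF4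
  have c4 : CM F4 := CM.add (CM.comp' c3 htz) CM.id
  have b4 : BdQ R (fun α _ h w => Mix h w ∧ Q α h w) F4 := by
    intro α _ h w s hs hq hlc
    change ∃ p ≤ F3 (tz s) + s, R α h w p
    obtain ⟨β, _, k, v, c, h1, h2, h3, h4, h5, h6, h7, h8⟩ := hz α h w s hs hq.1
    have h9 := hQ.shift α h w s hq.2
    rw [h8] at h9
    obtain ⟨p, h10, h11⟩ := b3 β k v (tz s) h1 ⟨h3, h4, h5, hQ.code α β h k c v h6 h7 h9⟩ h2
    refine ⟨p + s, Nat.add_le_add_right h10 s, hR.unshift α h w s p ?_⟩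
    rw [h8]
    exact hR.code α β h k c v p h7 h11
  -- B
  set F5 : ℕ → ℕ := fun s => 2 ^ s * F4 (tO s) + 2 ^ (s + 1) + (s + 1) ^ (s + 1) with hF5
  have c5 : CM F5 := CM.add (CM.add (CM.mul two (CM.comp' c4 ctO)) two')
    (CM.pow (CM.id) (CM.add CM.id (CM.const 1)))
  have b5 : BdQ R (fun α _ h w => Function.Injective (app h) ∧ Q α h w) F5 := bq_inj hQ hR F4 b4
  -- A
  refine ⟨fun s => F5 ((s + 1) ^ 2 ^ s) + s,
    (CM.add (CM.comp' c5 selfpow) CM.id).comp, ?_⟩
  intro α _ h w s hs hq hlc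
  obtain ⟨p, h1, h2⟩ := bq_simp (Q := Q) hR hQ.gf F5 c5.mono
    (fun α _ h w s hs hq hlc => b5 α h w s hs ⟨hq.1.inj, hq.2⟩ hlc) α h w s hs hq hlc
  refine ⟨p, h1.trans ?_, h2⟩
  have := c5.mono (Nat.pow_le_pow_left (Nat.le_succ s) (2 ^ s))
  exact Nat.add_le_add_right this s

/-- **A computable bound for the relations of type `R` of the locally catenative systems of the class `Q`.** -/
theorem boundQ (hQ : ClQ Q) (hR : ClR R)
    (hNF : ∀ (n N : ℕ) (H : Fin n → List (Fin n)) (b0 : List (Fin n)), NF H b0 N →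
      Q (Fin n) H b0 → ∃ p ≤ n, R (Fin n) H b0 p) :
    ∃ F, Computable F ∧ BdQ R Q F := by
  obtain ⟨G, hG, hbG⟩ := CM.hull (freeF_computable)
  refine main4Q hQ hR (fun s => G s + 1) (CM.add hG (CM.const 1)).comp ?_
  intro α _ h w s hs he hp hper hl hw hq hlc
  change ∃ p ≤ G s + 1, R α h w p
  by_cases hgr : ∀ a, Gr h a
  · obtain ⟨n, t, H, b0, N, hcod, hnf, hrel⟩ := exists_nf he.inj hgr hw hlc
    have h1 : n ≤ G s := (freeBound α h w s hs he hp hper hl hw n t H b0 hcod).trans (hbG s)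
    have h2 : Q (Fin n) H b0 := by
      refine hQ.code α (Fin n) h H t b0 hcod.inj hcod.comm ?_
      rw [hcod.ax]
      exact hq
    obtain ⟨p, h3, h4⟩ := hNF n N H b0 hnf h2
    refine ⟨p, by omega, ?_⟩
    rw [← hcod.ax]
    exact hR.code α (Fin n) h H t b0 p hcod.comm h4
  · push Not at hgr
    obtain ⟨a, ha⟩ := hgr
    exact ⟨1, by omega, hR.one α h w (rel_of_prim_bdd he.good.ne hp ha w)⟩

end

/-! ### The type of all relations -/

/-- All relations. -/
theorem clR_rel : ClR (fun _ h w p => Rel h w p) where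
  nil := fun _ h => rel_nil h
  bw := by
    intro α h w i j hij he
    refine ⟨[i], by simp, ?_, ?_⟩
    · intro k hk
      rw [List.mem_singleton] at hk
      subst hk
      exact hij
    · simp [he]
  one := fun _ _ _ h1 => h1
  per := fun _ _ _ _ _ h1 h2 h3 h4 h5 => per2 h1 h2 h3 h4 h5
  gf := fun _ _ _ _ _ _ _ h1 h2 => rel_of_gf h1 h2
  orbit := fun _ _ _ _ _ _ _ _ _ p h1 h2 h3 h4 => Orbit_rel h1 h2 h3 p h4
  code := by
    rintro α β h k c v p hk ⟨js, h1, h2, h3⟩
    refine ⟨js, h1, h2, ?_⟩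
    rw [← it_code hk, h3, app_flatten, List.map_map]
    congr 1
    apply List.map_congr_left
    intro j _
    simp only [Function.comp]
    rw [it_code hk]
  unshift := fun _ _ _ _ _ h1 => h1.unshift

/-- **A class whose normal forms consist of letters.** -/
theorem boundQ_letters {Q : ∀ (α : Type) [Fintype α], (α → List α) → List α → Prop}
    (hQ : ClQ Q) (hNF : ∀ (n N : ℕ) (H : Fin n → List (Fin n)) (b0 : List (Fin n)), NF H b0 N →
      Q (Fin n) H b0 → ∀ i < n, (it H i b0).length = 1) :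
    ∃ F, Computable F ∧ ∀ (α : Type) [Fintype α] (h : α → List α) (w : List α) (s : ℕ),
      Sz s h w → Q α h w → LC h w → ∃ p ≤ F s, Rel h w p :=
  boundQ hQ clR_rel fun n N H b0 hnf hq =>
    ⟨N, hnf.le_of_letters (hNF n N H b0 hnf hq), hnf.rel⟩

end D0L
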