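import Pool.Agent.H.MP_374efc_lc.Oe.Sh1
import Pool.Agent.H.MP_374efc_lc.Oe.T2
import Pool.Agent.H.MP_374efc_lc.Zt.Kf

/-!
# MP_374efc_lc: decidability of the existence of a formula which begins (ends) with `1`

`rfi_of_pfx`: a locally catenative system such that some word is an initial part of the next word satisfies a relation
which begins with the preceding word.  `i1_decidable`: from a computable bound `BoundP` it is decidable for all D0L
systems whether they satisfy a locally catenative formula which begins with `1`.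
-/

set_option autoImplicit false

namespace D0L

section tail

variable {α : Type} {h : α → List α} {w : List α}

theorem pre_add {k m : ℕ} (hk : it h k w <+: it h (k + m) w) (d : ℕ) :
    it h (k + d) w <+: it h (k + m + d) w := by
  obtain ⟨z, hz⟩ := hk
  refine ⟨it h d z, ?_⟩
  rw [Nat.add_comm k d, Nat.add_comm (k + m) d, it_add h d k, it_add h d (k + m), ← it_append, hz]

theorem pre_add' {k m : ℕ} (hk : it h (k + m) w <+: it h k w) (d : ℕ) :
    it h (k + m + d) w <+: it h (k + d) w := by
  obtain ⟨z, hz⟩ := hk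
  refine ⟨it h d z, ?_⟩
  rw [Nat.add_comm k d, Nat.add_comm (k + m) d, it_add h d k, it_add h d (k + m), ← it_append, hz]

/-- If the next word is an initial part of the word then the sequence is finally constant. -/
theorem const_of_pre {k : ℕ} (hk : it h (k + 1) w <+: it h k w) :
    ∃ m, it h (m + 1) w = it h m w := by
  by_contra hne
  push Not at hne
  have h1 : ∀ d, (it h (k + d) w).length + d ≤ (it h k w).length := by
    intro d
    induction d with
    | zero => simp
    | succ d ih =>
      have h2 := pre_add' hk d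
      have h3 := hne (k + d)
      have h4 : (it h (k + d + 1) w).length < (it h (k + d) w).length := by
        rw [show k + 1 + d = k + d + 1 by omega] at h2
        rcases Nat.lt_or_ge (it h (k + d + 1) w).length (it h (k + d) w).length with h5 | h5
        · exact h5
        · exact absurd (h2.eq_of_length_le h5) h3
      rw [show k + (d + 1) = k + d + 1 by omega]
      omega
  have h5 := h1 ((it h k w).length + 1)
  omega

theorem rfi_of_const {m : ℕ} (hm : it h (m + 1) w = it h m w) : Rfi h w m := by
  refine ⟨[], by simp, ?_⟩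
  unfold Eqn
  simpa using hm

theorem pfx_of_rfi {p : ℕ} (hp : Rfi h w p) : Pfx h w := by
  obtain ⟨js, -, h1⟩ := hp
  refine ⟨p, (js.map fun j => it h j w).flatten, ?_⟩
  unfold Eqn at h1
  rw [h1, List.map_cons, List.flatten_cons]

theorem lc_of_rfi {p : ℕ} (hp : Rfi h w p) : LC h w := by
  obtain ⟨js, h0, h1⟩ := hp
  refine ⟨p + 1, p :: js, by simp, ?_, h1⟩
  intro j hj
  rcases List.mem_cons.1 hj with rfl | hj
  · omega
  · have := h0 j hj
    omega

/-- If some word is an initial part of the next word then at the level of any relation the word and the next word are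
comparable. -/
theorem cmp_of_rel {q : ℕ} (hP : Pfx h w) (hq : Rel h w q) :
    it h q w <+: it h (q + 1) w ∨ it h (q + 1) w <+: it h q w := by
  obtain ⟨k, hk⟩ := hP
  obtain ⟨js, h1, h2, h3⟩ := hq
  match js, h1, h2, h3 with
  | j :: js, _, h2, h3 =>
    have hj : j < q := h2 j (by simp)
    obtain ⟨c, rfl⟩ : ∃ c, q = j + (c + 1) := ⟨q - j - 1, by omega⟩
    have h4 : it h j w <+: it h (j + (c + 1)) w := by
      refine ⟨(js.map fun j => it h j w).flatten, ?_⟩
      rw [h3, List.map_cons, List.flatten_cons]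
    have h5 : ∀ m d, it h (j + d) w <+: it h (j + (c + 1) * m + d) w := by
      intro m
      induction m with
      | zero => intro d; simp
      | succ m ih =>
        intro d
        have h6 := pre_add h4 ((c + 1) * m + d)
        have h7 := ih d
        rw [show j + (c + 1) + ((c + 1) * m + d) = j + (c + 1) * (m + 1) + d by ring] at h6
        rw [show j + ((c + 1) * m + d) = j + (c + 1) * m + d by omega] at h6
        exact h7.trans h6
    have h8 : it h (j + (c + 1)) w <+: it h (j + (c + 1) * (k + 1) + (c + 1)) w :=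
      h5 (k + 1) (c + 1)
    have h9 : it h (j + (c + 1) + 1) w <+: it h (j + (c + 1) * (k + 1) + (c + 1) + 1) w :=
      h5 (k + 1) (c + 1 + 1)
    have hle : k ≤ j + (c + 1) * (k + 1) + (c + 1) := by nlinarith
    obtain ⟨d, hd⟩ := Nat.exists_eq_add_of_le hle
    have h10 : it h (k + d) w <+: it h (k + 1 + d) w := pre_add hk d
    rw [← hd, show k + 1 + d = j + (c + 1) * (k + 1) + (c + 1) + 1 by omega] at h10
    exact List.prefix_or_prefix_of_prefix (h8.trans h10) h9

end tail

theorem rfi_of_pfx {c : List (List ℕ) × List ℕ} (hlc : LC (hs c) c.2) (hP : Pfx (hs c) c.2) :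
    ∃ p, Rfi (hs c) c.2 p := by
  obtain ⟨k, hk⟩ := hP
  obtain ⟨p, js, h1, h2⟩ := OE.lemT (hs_len c) hlc hk
  refine ⟨p, js, h1, ?_⟩
  unfold Eqn
  rw [h2, List.map_cons, List.flatten_cons]

/-- **Decidability of the formulas which begin with `1`.** -/
theorem i1_decidable {F : ℕ → ℕ} (hF : Computable F) (hB : BoundP F) :
    ∃ A : List (List ℕ) × List ℕ → Bool, Computable A ∧
      ∀ c, A c = true ↔ ∃ is : List ℕ, is.head? = some 1 ∧ LSat c is := by
  have hF1 : Computable (fun c : List (List ℕ) × List ℕ => F (sz c)) :=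
    hF.comp prim_sz.to_comp
  set P : (List (List ℕ) × List ℕ) × ℕ → Prop := fun x =>
    Rel (hs x.1) x.1.2 x.2 ∧
      (sqn x.1 x.2 <+: sqn x.1 (x.2 + 1) ∨ sqn x.1 (x.2 + 1) <+: sqn x.1 x.2) with hP
  have h1 : PrimrecPred P := by
    have e1 : Primrec (fun x : (List (List ℕ) × List ℕ) × ℕ => sqn x.1 x.2) :=
      prim_sqn.comp Primrec.fst Primrec.snd
    have e2 : Primrec (fun x : (List (List ℕ) × List ℕ) × ℕ => sqn x.1 (x.2 + 1)) :=
      prim_sqn.comp Primrec.fst (Primrec.succ.comp Primrec.snd)
    have e3 : PrimrecPred (fun x : (List (List ℕ) × List ℕ) × ℕ => Rel (hs x.1) x.1.2 x.2) :=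
      prim_rel
    exact e3.and ((prim_prefix.comp e1 e2).or (prim_prefix.comp e2 e1))
  obtain ⟨hd, h2⟩ := h1
  refine ⟨fun c => @decide (P (c, F (sz c))) (hd (c, F (sz c))), ?_, ?_⟩
  · exact h2.to_comp.comp (Computable.id.pair hF1)
  · intro c
    rw [@decide_eq_true_iff _ (hd (c, F (sz c))), ← rfi_iff_lsat]
    constructor
    · rintro ⟨h3, h4 | h4⟩
      · exact rfi_of_pfx ⟨_, h3⟩ ⟨_, h4⟩
      · obtain ⟨m, hm⟩ := const_of_pre (h := hs c) (w := c.2) h4
        exact ⟨m, rfi_of_const hm⟩
    · rintro ⟨p, hp⟩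
      have hpf : Pfx (hs c) c.2 := pfx_of_rfi hp
      obtain ⟨r, hr⟩ := lc_of_rfi hp
      obtain ⟨q, hq, hq1⟩ := hB (Fin (nl c)) (hf c) (wf c) (sz c) (sz_ok c) ((pfx_val c).2 hpf)
        ⟨r, (rel_val c r).2 hr⟩
      have h5 : Rel (hs c) c.2 (F (sz c)) := ((rel_val c q).1 hq1).mono hq
      exact ⟨h5, cmp_of_rel hpf h5⟩

end D0L
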