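import Pool.Agent.H.MP_374efc_lc.Base

/-!
# MP_374efc_lc: locally catenative systems with `w_k` a prefix of `w_(k+1)`

`lemT`: if the system is locally catenative and some `h^k(w)` is a prefix of `h^(k+1)(w)`, then there is a relation
`h^(p+1)(w) = h^p(w) * product of h^j(w), j ≤ p`.  Elementary counting: if the quotients `y_K = w_K^{-1} w_(K+1)` are
not in the monoid `M` of the `w_j`, the density of the positions `a` of `w_K` with `take a w_K ∈ M` grows by a fixed
amount for ever.
-/

set_option autoImplicit false

namespace D0L

namespace OE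

variable {α : Type}

/-- Products of words `h^j(w)` with `j` in `S`. -/
def TMs (h : α → List α) (w : List α) (S : ℕ → Prop) (u : List α) : Prop :=
  ∃ js : List ℕ, (∀ j ∈ js, S j) ∧ u = (js.map (fun j => it h j w)).flatten

theorem TMs.nil {h : α → List α} {w : List α} {S : ℕ → Prop} : TMs h w S [] :=
  ⟨[], by simp, rfl⟩

theorem TMs.append {h : α → List α} {w : List α} {S : ℕ → Prop} {u v : List α}
    (hu : TMs h w S u) (hv : TMs h w S v) : TMs h w S (u ++ v) := by
  obtain ⟨js, h1, rfl⟩ := hu
  obtain ⟨ks, h2, rfl⟩ := hv
  refine ⟨js ++ ks, ?_, by simp⟩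
  intro j hj
  rcases List.mem_append.1 hj with hj | hj
  · exact h1 j hj
  · exact h2 j hj

theorem TMs.flatten {h : α → List α} {w : List α} {S : ℕ → Prop} {L : List (List α)}
    (hL : ∀ u ∈ L, TMs h w S u) : TMs h w S L.flatten := by
  induction L with
  | nil => exact TMs.nil
  | cons u L ih =>
    rw [List.flatten_cons]
    exact (hL u (by simp)).append (ih fun v hv => hL v (by simp [hv]))

theorem TMs.tok {h : α → List α} {w : List α} {S : ℕ → Prop} {j : ℕ} (hj : S j) :
    TMs h w S (it h j w) := ⟨[j], by simpa using hj, by simp⟩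

/-- Refinement to the levels `[T, T + N)`. -/
theorem refine_rel {h : α → List α} {w : List α} {N : ℕ} {js : List ℕ}
    (hlt : ∀ j ∈ js, j < N) (hrel : it h N w = (js.map (fun j => it h j w)).flatten)
    (T : ℕ) : ∀ K, T ≤ K → TMs h w (fun j => T ≤ j ∧ j < T + N) (it h K w) := by
  intro K
  induction K using Nat.strong_induction_on with
  | _ K ih =>
    intro hK
    by_cases h1 : K < T + N
    · exact TMs.tok ⟨hK, h1⟩
    · push Not at h1
      obtain ⟨m, rfl⟩ : ∃ m, K = N + m := ⟨K - N, by omega⟩
      rw [rel_shift hrel m]
      apply TMs.flatten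
      intro u hu
      obtain ⟨j, hj, rfl⟩ := List.mem_map.1 hu
      have h2 := hlt j hj
      exact ih (j + m) (by omega) (by omega)

open Classical in
/-- The number of positions `a < |v|` with `u ++ take a v` in `M`. -/
noncomputable def cn (M : List α → Prop) : List α → List α → ℕ
  | _, [] => 0
  | u, x :: v => (if M u then 1 else 0) + cn M (u ++ [x]) v

theorem cn_append (M : List α → Prop) (v1 v2 : List α) : ∀ u,
    cn M u (v1 ++ v2) = cn M u v1 + cn M (u ++ v1) v2 := by
  induction v1 with
  | nil => intro u; simp [cn]
  | cons x v1 ih =>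
    intro u
    rw [List.cons_append, cn, cn, ih]
    simp [add_assoc]

theorem cn_le_length (M : List α → Prop) (v : List α) : ∀ u, cn M u v ≤ v.length := by
  induction v with
  | nil => intro u; simp [cn]
  | cons x v ih =>
    intro u
    rw [cn, List.length_cons]
    have := ih (u ++ [x])
    split_ifs <;> omega

theorem cn_mono (M : List α → Prop) {u0 : List α} (h0 : ∀ z, M z → M (u0 ++ z)) (v : List α) :
    ∀ u, cn M u v ≤ cn M (u0 ++ u) v := by
  induction v with
  | nil => intro u; simp [cn]
  | cons x v ih =>
    intro u
    rw [cn, cn]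
    have h1 := ih (u ++ [x])
    rw [← List.append_assoc] at h1
    by_cases h2 : M u
    · have h3 := h0 u h2
      simp only [h2, h3, if_true]
      omega
    · simp only [h2, if_false]
      omega

open Classical in
/-- The number of positions `a < |v|` with `u ++ take a v` and `drop a v ++ d` in `M`. -/
noncomputable def zn (M : List α → Prop) (d : List α) : List α → List α → ℕ
  | _, [] => 0
  | u, x :: v => (if M u ∧ M (x :: v ++ d) then 1 else 0) + zn M d (u ++ [x]) v

theorem zn_append (M : List α → Prop) (d : List α) (v1 v2 : List α) : ∀ u,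
    zn M d u (v1 ++ v2) = zn M (v2 ++ d) u v1 + zn M d (u ++ v1) v2 := by
  induction v1 with
  | nil => intro u; simp [zn]
  | cons x v1 ih =>
    intro u
    have e : x :: (v1 ++ v2) ++ d = x :: v1 ++ (v2 ++ d) := by simp
    have e2 : u ++ [x] ++ v1 = u ++ x :: v1 := by simp
    rw [List.cons_append, zn, zn, ih, e, e2, add_assoc]

/-- In the window the refined cuts and the positions with `take a b ∈ M` are disjoint. -/
theorem cn_add_zn (M : List α → Prop) (hap : ∀ x y, M x → M y → M (x ++ y)) {a d : List α}
    (ha : M a) (b2 : List α) : ∀ b1 : List α, ¬ M (b1 ++ b2 ++ d) →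
      cn M b1 b2 + zn M d (a ++ b1) b2 ≤ cn M (a ++ b1) b2 := by
  induction b2 with
  | nil => intro b1 _; simp [cn, zn]
  | cons x b2 ih =>
    intro b1 hn
    have h1 := ih (b1 ++ [x]) (by simpa using hn)
    rw [← List.append_assoc] at h1
    rw [cn, cn, zn]
    by_cases h2 : M b1
    · have h3 : M (a ++ b1) := hap _ _ ha h2
      have h4 : ¬ M (x :: b2 ++ d) := by
        intro h5
        apply hn
        have := hap _ _ h2 h5
        simpa using this
      simp only [h2, h3, h4, if_true, and_false, if_false]
      omega
    · by_cases h3 : M (a ++ b1)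
      · simp only [h2, h3, if_true, if_false, true_and]
        split_ifs <;> omega
      · simp only [h2, h3, if_false, false_and]
        omega

section counting

variable {h : α → List α} {w : List α} {M : List α → Prop}

/-- Pieces of positive density, from the start. -/
theorem dens0 (hap : ∀ x y, M x → M y → M (x ++ y)) (htok : ∀ j, M (it h j w))
    {m E : ℕ} {js : List ℕ}
    (hd : ∀ j ∈ js, m * (it h j w).length ≤ E * cn M [] (it h j w)) :
    ∀ u0, M u0 → m * ((js.map (fun j => it h j w)).flatten).length ≤
      E * cn M u0 ((js.map (fun j => it h j w)).flatten) := by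
  induction js with
  | nil => intro u0 _; simp
  | cons j js ih =>
    intro u0 hu0
    rw [List.map_cons, List.flatten_cons, cn_append, List.length_append, mul_add, mul_add]
    have h1 := ih (fun i hi => hd i (by simp [hi])) (u0 ++ it h j w) (hap _ _ hu0 (htok j))
    have h2 := hd j (by simp)
    have h3 := cn_mono M (u0 := u0) (fun z hz => hap _ _ hu0 hz) (it h j w) []
    rw [List.append_nil] at h3
    have h4 := Nat.mul_le_mul_left E h3
    omega

/-- Pieces of positive density, from any position. -/
theorem dens1 (hap : ∀ x y, M x → M y → M (x ++ y)) (htok : ∀ j, M (it h j w))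
    {m E tail : ℕ} {js : List ℕ}
    (hd : ∀ j ∈ js, m * (it h j w).length ≤ E * cn M [] (it h j w))
    (ht : ∀ j ∈ js, (it h j w).length ≤ tail) :
    ∀ u0 u v, M u0 → u ++ v = (js.map (fun j => it h j w)).flatten →
      m * v.length ≤ E * cn M (u0 ++ u) v + m * tail := by
  induction js with
  | nil =>
    intro u0 u v _ huv
    rw [List.map_nil, List.flatten_nil, List.append_eq_nil_iff] at huv
    rw [huv.2]
    simp
  | cons j js ih =>
    intro u0 u v hu0 huv
    rw [List.map_cons, List.flatten_cons] at huv
    have hd' : ∀ i ∈ js, m * (it h i w).length ≤ E * cn M [] (it h i w) :=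
      fun i hi => hd i (by simp [hi])
    rcases List.append_eq_append_iff.1 huv with ⟨s, h1, h2⟩ | ⟨s, h1, h2⟩
    · -- `w_j = u ++ s`
      rw [h2, cn_append, List.length_append]
      have h3 := dens0 hap htok hd' (u0 ++ it h j w) (hap _ _ hu0 (htok j))
      rw [h1, ← List.append_assoc] at h3
      have h4 := ht j (by simp)
      rw [h1, List.length_append] at h4
      have h5 : m * s.length ≤ m * tail := Nat.mul_le_mul_left m (by omega)
      rw [mul_add, mul_add]
      omega
    · -- `u = w_j ++ s`
      have h3 := ih hd' (fun i hi => ht i (by simp [hi])) (u0 ++ it h j w) s v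
        (hap _ _ hu0 (htok j)) h2.symm
      rw [h1, ← List.append_assoc]
      exact h3

/-- The refined cuts, from a cut. -/
theorem cuts0 (hnil : M []) (hap : ∀ x y, M x → M y → M (x ++ y)) (htok : ∀ j, M (it h j w))
    {ml : ℕ} {js : List ℕ} (hl : ∀ j ∈ js, (it h j w).length ≤ ml)
    (hpos : ∀ j, it h j w ≠ []) :
    ∀ u0 b d, M u0 → b ++ d = (js.map (fun j => it h j w)).flatten →
      b.length ≤ ml * zn M d u0 b := by
  have hM : ∀ ks : List ℕ, M ((ks.map (fun j => it h j w)).flatten) := by
    intro ks
    induction ks with
    | nil => exact hnil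
    | cons k ks ih => rw [List.map_cons, List.flatten_cons]; exact hap _ _ (htok k) ih
  induction js with
  | nil =>
    intro u0 b d _ hbd
    rw [List.map_nil, List.flatten_nil, List.append_eq_nil_iff] at hbd
    rw [hbd.1]
    simp
  | cons j js ih =>
    intro u0 b d hu0 hbd
    have hMt : M (b ++ d) := by rw [hbd]; exact hM _
    rw [List.map_cons, List.flatten_cons] at hbd
    have hj := hl j (by simp)
    rcases b with _ | ⟨x, b⟩
    · simp
    rcases List.append_eq_append_iff.1 hbd with ⟨s, h1, h2⟩ | ⟨s, h1, h2⟩
    · -- `w_j = b ++ s`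
      have h3 : 1 ≤ zn M d u0 (x :: b) := by
        rw [zn]
        simp only [hu0, hMt, and_self, if_true]
        omega
      have h4 : (x :: b).length ≤ ml := by
        rw [h1, List.length_append] at hj
        omega
      calc (x :: b).length ≤ ml := h4
        _ = ml * 1 := (mul_one _).symm
        _ ≤ ml * zn M d u0 (x :: b) := Nat.mul_le_mul_left _ h3
    · -- `b = w_j ++ s`
      have h3 := ih (fun i hi => hl i (by simp [hi])) (u0 ++ it h j w) s d
        (hap _ _ hu0 (htok j)) h2.symm
      rw [h1, zn_append, List.length_append]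
      have h4 : 1 ≤ zn M (s ++ d) u0 (it h j w) := by
        obtain ⟨y, t, hyt⟩ := List.exists_cons_of_ne_nil (hpos j)
        have h5 : M (y :: t ++ (s ++ d)) := by
          rw [← hyt]
          exact hap _ _ (htok j) (by rw [← h2]; exact hM _)
        rw [hyt, zn]
        simp only [hu0, h5, and_self, if_true]
        omega
      have h5 : ml * 1 ≤ ml * zn M (s ++ d) u0 (it h j w) := Nat.mul_le_mul_left _ h4
      rw [mul_add]
      omega

/-- The refined cuts, from any position. -/
theorem cuts1 (hnil : M []) (hap : ∀ x y, M x → M y → M (x ++ y)) (htok : ∀ j, M (it h j w))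
    {ml : ℕ} {js : List ℕ} (hl : ∀ j ∈ js, (it h j w).length ≤ ml)
    (hpos : ∀ j, it h j w ≠ []) :
    ∀ u0 u b d, M u0 → u ++ (b ++ d) = (js.map (fun j => it h j w)).flatten →
      b.length ≤ ml * zn M d (u0 ++ u) b + ml := by
  induction js with
  | nil =>
    intro u0 u b d _ hbd
    rw [List.map_nil, List.flatten_nil, List.append_eq_nil_iff, List.append_eq_nil_iff] at hbd
    rw [hbd.2.1]
    simp
  | cons j js ih =>
    intro u0 u b d hu0 hbd
    rw [List.map_cons, List.flatten_cons] at hbd
    have hj := hl j (by simp)
    have hl' : ∀ i ∈ js, (it h i w).length ≤ ml := fun i hi => hl i (by simp [hi])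
    rcases List.append_eq_append_iff.1 hbd with ⟨s, h1, h2⟩ | ⟨s, h1, h2⟩
    · -- `w_j = u ++ s`
      rw [h1, List.length_append] at hj
      rcases List.append_eq_append_iff.1 h2 with ⟨r, h3, h4⟩ | ⟨r, h3, h4⟩
      · -- `s = b ++ r`
        rw [h3, List.length_append] at hj
        omega
      · -- `b = s ++ r`
        have h5 := cuts0 hnil hap htok hl' hpos (u0 ++ it h j w) r d (hap _ _ hu0 (htok j))
          h4.symm
        rw [h3, zn_append, List.length_append, mul_add]
        rw [h1, ← List.append_assoc] at h5
        omega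
    · -- `u = w_j ++ s`
      have h3 := ih hl' (u0 ++ it h j w) s b d (hap _ _ hu0 (htok j)) h2.symm
      rw [h1, ← List.append_assoc]
      exact h3

end counting

/-- **Density grows.**  The heart of the counting argument. -/
theorem dens_false {h : α → List α} {w : List α} {Λ : ℕ} (hΛ : ∀ a, (h a).length ≤ Λ)
    {N : ℕ} {js : List ℕ} (hlt : ∀ j ∈ js, j < N)
    (hrel : it h N w = (js.map (fun j => it h j w)).flatten)
    (hpos : ∀ j, it h j w ≠ []) (hmono : ∀ j, (it h j w).length ≤ (it h (j + 1) w).length)
    (hdb : ∀ m, 2 * (it h m w).length ≤ (it h (N + m) w).length) {c : ℕ}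
    (hc : ∀ t, it h (c + t) w ++ it h t w <+: it h (c + t + 1) w)
    (hno : ∀ K y, it h (K + 1) w = it h K w ++ y → ¬ TMs h w (fun _ => True) y) : False := by
  classical
  set M : List α → Prop := TMs h w (fun _ => True) with hM
  have hnil : M [] := TMs.nil
  have hap : ∀ x y, M x → M y → M (x ++ y) := fun x y hx hy => hx.append hy
  have htok : ∀ j, M (it h j w) := fun j => TMs.tok trivial
  set ln : ℕ → ℕ := fun j => (it h j w).length with hln
  have hmon : Monotone ln := monotone_nat_of_le_succ hmono
  have hlnpos : ∀ j, 0 < ln j := fun j => List.length_pos_of_ne_nil (hpos j)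
  have hN : 0 < N := by
    by_contra h0
    have h1 : N = 0 := by omega
    subst h1
    have h2 := hdb 0
    have h3 := hlnpos 0
    simp only [hln, Nat.zero_add] at h2 h3
    omega
  -- doubling
  have hdbl : ∀ r m, 2 ^ r * ln m ≤ ln (r * N + m) := by
    intro r
    induction r with
    | zero => intro m; simp
    | succ r ih =>
      intro m
      have h1 := ih m
      have h2 := hdb (r * N + m)
      have h3 : (r + 1) * N + m = N + (r * N + m) := by ring
      rw [h3]
      calc 2 ^ (r + 1) * ln m = 2 * (2 ^ r * ln m) := by ring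
        _ ≤ 2 * ln (r * N + m) := Nat.mul_le_mul_left 2 h1
        _ ≤ _ := h2
  set ml := ln N with hml
  have hmlpos : 0 < ml := hlnpos N
  set q := Λ ^ (c + 1) with hq
  set E := 4 * q * ml with hE
  set f : ℕ → ℕ := fun L => cn M [] (it h L w) with hf
  have hfl : ∀ L, f L ≤ ln L := fun L => cn_le_length M _ _
  have hgrow : ∀ t, ln (c + t + 1) ≤ q * ln t := by
    intro t
    have h1 := length_it_le hΛ (c + 1) (it h t w)
    rw [← it_add] at h1
    have h2 : c + t + 1 = c + 1 + t := by omega
    simp only [hln]
    rw [h2]
    exact h1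
  have hqpos : 0 < q := by
    have h1 := hgrow 0
    have h2 := hlnpos (c + 0 + 1)
    rcases Nat.eq_zero_or_pos q with h3 | h3
    · rw [h3] at h1
      omega
    · exact h3
  -- the induction
  have key : ∀ m, ∃ L0, ∀ L, L0 ≤ L → m * ln L ≤ E * f L := by
    intro m
    induction m with
    | zero => exact ⟨0, fun L _ => by simp⟩
    | succ m ih =>
      obtain ⟨L0, hL0⟩ := ih
      have hmE : m ≤ E := by
        have h1 := hL0 L0 le_rfl
        have h2 := hfl L0
        have h3 := hlnpos L0
        have h4 : m * ln L0 ≤ E * ln L0 := h1.trans (Nat.mul_le_mul_left E h2)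
        exact Nat.le_of_mul_le_mul_right h4 h3
      -- choose `r` with `2 ^ r ≥ 4 * ml`
      obtain ⟨r, hr⟩ : ∃ r, 4 * ml ≤ 2 ^ r := ⟨4 * ml, Nat.lt_two_pow_self.le⟩
      refine ⟨c + 1 + (L0 + (r + 1) * N + (ml + 1) * N), ?_⟩
      intro L hL
      obtain ⟨t, rfl⟩ : ∃ t, L = c + t + 1 := ⟨L - c - 1, by omega⟩
      have ht : L0 + (r + 1) * N + (ml + 1) * N ≤ t := by omega
      -- the words
      obtain ⟨d, hd⟩ := hc t
      set a := it h (c + t) w with ha
      set b := it h t w with hb
      have hW : it h (c + t + 1) w = a ++ (b ++ d) := by rw [← hd, List.append_assoc]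
      -- refinement to level 0
      obtain ⟨ks, hk1, hk2⟩ := refine_rel hlt hrel 0 (c + t + 1) (Nat.zero_le _)
      have hcut := cuts1 (M := M) hnil hap htok (ml := ml) (js := ks)
        (fun j hj => hmon (by have := (hk1 j hj).2; omega)) hpos [] a b d hnil
        (by rw [← hk2, hW])
      rw [List.nil_append] at hcut
      -- refinement to level T
      set T := t - (r + 1) * N with hT
      have hTle : L0 ≤ T := by
        rw [hT]
        omega
      obtain ⟨is, hi1, hi2⟩ := refine_rel hlt hrel T (c + t + 1) (by omega)
      have hTt : T + (r + 1) * N = t := by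
        rw [hT]
        have : (r + 1) * N ≤ t := by omega
        omega
      set tail := ln (t - r * N) with htail
      have hrN : (r + 1) * N = r * N + N := by ring
      have hdens := dens1 (M := M) hap htok (m := m) (E := E) (tail := tail) (js := is)
        (fun j hj => hL0 j (by have := (hi1 j hj).1; omega))
        (fun j hj => hmon (by have := (hi1 j hj).2; omega)) [] (a ++ b) d hnil
        (by rw [← hi2, hW, List.append_assoc])
      rw [List.nil_append] at hdens
      -- the window
      have hwin := cn_add_zn M hap (htok (c + t)) (d := d) b [] (by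
        rw [List.nil_append]
        exact hno (c + t) (b ++ d) hW)
      rw [List.append_nil, ← ha] at hwin
      -- the count
      have hf1 : f (c + t + 1) = f (c + t) + cn M a b + cn M (a ++ b) d := by
        simp only [hf]
        rw [hW, cn_append, List.nil_append, cn_append, ← ha, add_assoc]
      have hA : m * ln (c + t) ≤ E * f (c + t) := hL0 _ (by omega)
      have hB : m * ln t ≤ E * f t := hL0 _ (by omega)
      have hlen : ln (c + t + 1) = ln (c + t) + ln t + d.length := by
        simp only [hln]
        rw [hW, List.length_append, List.length_append, ← ha, ← hb]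
        omega
      -- numbers
      have hlt1 : 2 * ml ≤ ln t := by
        have h1 := hdbl (ml + 1) (t - (ml + 1) * N)
        have h2 : (ml + 1) * N + (t - (ml + 1) * N) = t := by
          have : (ml + 1) * N ≤ t := by omega
          omega
        rw [h2] at h1
        have h3 := hlnpos (t - (ml + 1) * N)
        have h4 : ml < 2 ^ ml := Nat.lt_two_pow_self
        have h5 : 2 ^ (ml + 1) = 2 * 2 ^ ml := by ring
        nlinarith
      have htl : 4 * (ml * tail) ≤ ln t := by
        have h1 := hdbl r (t - r * N)
        have h2 : r * N + (t - r * N) = t := by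
          have : r * N ≤ t := by omega
          omega
        rw [h2] at h1
        calc 4 * (ml * tail) = 4 * ml * tail := by ring
          _ ≤ 2 ^ r * tail := Nat.mul_le_mul_right _ hr
          _ ≤ ln t := h1
      have hgr := hgrow t
      have e1 : m * tail ≤ q * ln t := by
        calc m * tail ≤ E * tail := Nat.mul_le_mul_right _ hmE
          _ = q * (4 * (ml * tail)) := by rw [hE]; ring
          _ ≤ q * ln t := Nat.mul_le_mul_left _ htl
      have hcut' : b.length ≤ ml * zn M d a b + ml := hcut
      have hbl : b.length = ln t := rfl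
      rw [hbl] at hcut'
      set z := zn M d a b with hz
      have e2 : 4 * q * ln t ≤ E * z + 4 * q * ml := by
        calc 4 * q * ln t ≤ 4 * q * (ml * z + ml) := Nat.mul_le_mul_left _ hcut'
          _ = E * z + 4 * q * ml := by rw [hE]; ring
      have e3 : 4 * q * ml ≤ 2 * (q * ln t) := by
        calc 4 * q * ml = 2 * (q * (2 * ml)) := by ring
          _ ≤ 2 * (q * ln t) := Nat.mul_le_mul_left _ (Nat.mul_le_mul_left _ hlt1)
      have e4 : 4 * q * ln t = 4 * (q * ln t) := by ring
      have e5 : 2 * (q * ln t) ≤ E * z := by omega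
      have e6 : E * f t + E * z ≤ E * cn M a b := by
        have h1 : f t + z ≤ cn M a b := hwin
        calc E * f t + E * z = E * (f t + z) := by ring
          _ ≤ E * cn M a b := Nat.mul_le_mul_left _ h1
      have e7 : E * f (c + t + 1) = E * f (c + t) + E * cn M a b + E * cn M (a ++ b) d := by
        rw [hf1]
        ring
      have e8 : (m + 1) * ln (c + t + 1) = m * ln (c + t) + m * ln t + m * d.length +
          ln (c + t + 1) := by
        rw [add_mul, one_mul, hlen]
        ring
      rw [e7, e8]
      omega
  obtain ⟨L0, hL0⟩ := key (E + 1)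
  have h1 := hL0 L0 le_rfl
  have h2 := Nat.mul_le_mul_left E (hfl L0)
  have h3 := hlnpos L0
  rw [add_mul, one_mul] at h1
  omega

end OE

end D0L
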