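import Pool.Agent.H.MP_374efc_lc.Oe.Te1

/-!
# MP_374efc_lc: Lemma T with a period

`lemTe`: if the system is locally catenative, nonerasing, and some `h^k(w)` is a prefix of `h^(k+e)(w)`, then there is a
relation `h^(p+e)(w) = h^p(w) * product of h^j(w), j < p + e`.
-/

set_option autoImplicit false

namespace D0L

namespace OE

variable {α : Type}

theorem length_it_mono' {h : α → List α} (hne : ∀ a, h a ≠ []) (x : List α) (k : ℕ) :
    x.length ≤ (it h k x).length := by
  induction k with
  | zero => exact le_rfl
  | succ k ih =>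
    rw [it_succ]
    exact ih.trans (length_le_app hne _)

theorem pfx_all_e {h : α → List α} {w : List α} {e : ℕ} (hp : w <+: it h e w) (j : ℕ) :
    it h j w <+: it h (j + e) w := by
  rw [it_add]
  exact it_prefix j hp

theorem pfx_mul_e {h : α → List α} {w : List α} {e : ℕ} (hp : w <+: it h e w) (j i : ℕ) :
    it h j w <+: it h (j + e * i) w := by
  induction i with
  | zero => exact List.prefix_refl _
  | succ i ih =>
    refine ih.trans ?_
    have h1 := pfx_all_e hp (j + e * i)
    rwa [show j + e * i + e = j + e * (i + 1) by ring] at h1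

theorem lemTe0 {h : α → List α} {w : List α} {Λ : ℕ} (hΛ : ∀ a, (h a).length ≤ Λ)
    (hne : ∀ a, h a ≠ []) (hw : w ≠ []) {e : ℕ} (he : 0 < e)
    (hlc : LC h w) (hp : w <+: it h e w) :
    ∃ (p : ℕ) (js : List ℕ), (∀ j ∈ js, j < p + e) ∧
      it h (p + e) w = it h p w ++ (js.map (fun j => it h j w)).flatten := by
  by_contra hcon
  push Not at hcon
  set ln : ℕ → ℕ := fun j => (it h j w).length with hln
  have hmono : ∀ j, ln j ≤ ln (j + 1) := by
    intro j
    simp only [hln]
    rw [it_succ]
    exact length_le_app hne _
  have hmon : Monotone ln := monotone_nat_of_le_succ hmono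
  have hpos : ∀ j, it h j w ≠ [] := by
    intro j hj
    have h1 : ln 0 ≤ ln j := hmon (Nat.zero_le j)
    have h2 : 0 < ln 0 := List.length_pos_of_ne_nil hw
    simp only [hln] at h1 h2
    rw [hj, List.length_nil] at h1
    omega
  have hlnpos : ∀ j, 0 < ln j := fun j => List.length_pos_of_ne_nil (hpos j)
  have hstrict : ∀ j, ln j < ln (j + e) := by
    intro j
    rcases lt_or_eq_of_le (pfx_all_e hp j).length_le with h1 | h1
    · exact h1
    · exfalso
      have h2 := (pfx_all_e hp j).eq_of_length h1
      apply hcon j [] (by simp)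
      simpa using h2.symm
  have hno : ∀ K y, it h (K + e) w = it h K w ++ y → ¬ TMs h w (fun _ => True) y := by
    rintro K y hy ⟨js, -, rfl⟩
    refine hcon K js ?_ hy
    intro j hj
    by_contra hjK
    push Not at hjK
    have h0 : it h j w ∈ js.map (fun j => it h j w) := List.mem_map.2 ⟨j, hj, rfl⟩
    have h1 : (it h j w).length ≤ ((js.map (fun j => it h j w)).flatten).length :=
      (List.infix_of_mem_flatten h0).length_le
    have h2 : ln (K + e) = ln K + ((js.map (fun j => it h j w)).flatten).length := by
      simp only [hln]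
      rw [hy, List.length_append]
    have h3 : ln (K + e) ≤ ln j := hmon hjK
    have h4 := hlnpos K
    simp only [hln] at h2 h3 h4
    omega
  obtain ⟨N, js, hnl, hlt, hrel⟩ := hlc
  obtain ⟨j1, j2, rest, rfl⟩ : ∃ j1 j2 rest, js = j1 :: j2 :: rest := by
    rcases js with _ | ⟨j1, _ | ⟨j2, rest⟩⟩
    · exact absurd rfl hnl
    · exfalso
      have h1 := hlt j1 (by simp)
      have h2 : ∀ i, ln (j1 + (N - j1) * i) = ln j1 := by
        intro i
        induction i with
        | zero => simp
        | succ i ih =>
          have h3 := rel_shift hrel ((N - j1) * i)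
          have h4 : j1 + (N - j1) * (i + 1) = N + (N - j1) * i := by
            rw [Nat.mul_succ]
            omega
          rw [h4, ← ih]
          simp only [hln]
          rw [h3]
          simp
      have h3 : ln (j1 + (N - j1) * e) = ln j1 := h2 e
      have h4 : ∀ i, ln j1 + i ≤ ln (j1 + i * e) := by
        intro i
        induction i with
        | zero => simp
        | succ i ih =>
          have h5 := hstrict (j1 + i * e)
          rw [show j1 + i * e + e = j1 + (i + 1) * e by ring] at h5
          omega
      have h5 := h4 (N - j1)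
      omega
    · exact ⟨j1, j2, rest, rfl⟩
  have hj1 := hlt j1 (by simp)
  have hsh : ∀ m, it h (N + m) w = it h (j1 + m) w ++
      (it h (j2 + m) w ++ (rest.map (fun j => it h (j + m) w)).flatten) := by
    intro m
    rw [rel_shift hrel m]
    simp
  have hdb : ∀ m, 2 * ln m ≤ ln (N + m) := by
    intro m
    have h1 : ln (N + m) = ln (j1 + m) + (ln (j2 + m) +
        ((rest.map (fun j => it h (j + m) w)).flatten).length) := by
      simp only [hln]
      rw [hsh m, List.length_append, List.length_append]
    have h2 : ln m ≤ ln (j1 + m) := hmon (by omega)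
    have h3 : ln m ≤ ln (j2 + m) := hmon (by omega)
    omega
  have hdbl : ∀ r m, 2 ^ r * ln m ≤ ln (r * N + m) := by
    intro r
    induction r with
    | zero => intro m; simp
    | succ r ih =>
      intro m
      have h1 := ih m
      have h2 := hdb (r * N + m)
      have h3 : (r + 1) * N + m = N + (r * N + m) := by ring
      rw [h3]
      calc 2 ^ (r + 1) * ln m = 2 * (2 ^ r * ln m) := by ring
        _ ≤ 2 * ln (r * N + m) := Nat.mul_le_mul_left 2 h1
        _ ≤ _ := h2
  -- the residue class: `K + j2 = j1 + e * s`
  -- a level with a long quotient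
  obtain ⟨K, s, hK, hKs, hKlen⟩ : ∃ K s, j1 ≤ K ∧ K + j2 = j1 + e * s ∧
      ln K + ln 0 ≤ ln (K + e) := by
    by_contra hc
    push Not at hc
    -- `K_i = j1 + (e - 1) * j2 + e * i`
    set K0 := j1 + (e - 1) * j2 with hK0
    have hK0' : K0 + j2 = j1 + e * j2 := by
      obtain ⟨e', rfl⟩ : ∃ e', e = e' + 1 := ⟨e - 1, by omega⟩
      rw [hK0, Nat.add_sub_cancel]
      ring
    have h1 : ∀ i, ln (K0 + e * i) ≤ ln K0 + i * ln 0 := by
      intro i
      induction i with
      | zero => simp
      | succ i ih =>
        have h2 := hc (K0 + e * i) (j2 + i) (by omega) (by rw [mul_add]; omega)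
        have h3 : (i + 1) * ln 0 = i * ln 0 + ln 0 := by ring
        have h4 : K0 + e * (i + 1) = K0 + e * i + e := by ring
        rw [h4, h3]
        omega
    set s := 2 * N + 1 with hs
    have h2 := hdbl (2 * s) K0
    have h3 := h1 (2 * s * N)
    have h3' : ln (2 * s * N + K0) ≤ ln (K0 + e * (2 * s * N)) := by
      apply hmon
      have : 2 * s * N ≤ e * (2 * s * N) := Nat.le_mul_of_pos_left _ he
      omega
    have h4 : ln 0 ≤ ln K0 := hmon (Nat.zero_le _)
    have h5 : 2 * s * N * ln 0 ≤ 2 * s * N * ln K0 := Nat.mul_le_mul_left _ h4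
    have h6 : 2 ^ (2 * s) * ln K0 ≤ (1 + 2 * s * N) * ln K0 := by
      rw [add_mul, one_mul]
      omega
    have h7 := Nat.le_of_mul_le_mul_right h6 (hlnpos K0)
    have h8 : s < 2 ^ s := Nat.lt_two_pow_self
    have h9 : 2 ^ (2 * s) = 2 ^ s * 2 ^ s := by rw [← pow_add]; congr 1; ring
    have h10 : (s + 1) * (s + 1) ≤ 2 ^ s * 2 ^ s := Nat.mul_le_mul h8 h8
    rw [h9] at h7
    nlinarith
  obtain ⟨y, hy⟩ := pfx_all_e hp K
  have hwy : w <+: y := by
    -- both `w_(K+e)` and `w_K w_(K+j2-j1)` are prefixes of `w_(K + (N - j1) e)`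
    have hchain : ∀ i, it h (K + (N - j1)) w <+: it h (K + (N - j1) * (i + 1)) w := by
      intro i
      induction i with
      | zero => rw [Nat.zero_add, Nat.mul_one]
      | succ i ih =>
        refine ih.trans ?_
        have h1 := hsh (K + (N - j1) * (i + 1) - j1)
        have h2 : j1 + (K + (N - j1) * (i + 1) - j1) = K + (N - j1) * (i + 1) := by omega
        have h3 : N + (K + (N - j1) * (i + 1) - j1) = K + (N - j1) * (i + 1 + 1) := by
          have : (N - j1) * (i + 1 + 1) = (N - j1) * (i + 1) + (N - j1) := by ring
          omega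
        rw [h2, h3] at h1
        rw [h1]
        exact List.prefix_append _ _
    have h1 := hsh (K - j1)
    have h2 : j1 + (K - j1) = K := by omega
    have h2' : N + (K - j1) = K + (N - j1) := by omega
    rw [h2, h2'] at h1
    set g := it h (j2 + (K - j1)) w ++ (rest.map (fun j => it h (j + (K - j1)) w)).flatten
      with hg
    have h3 : it h (K + e) w <+: it h (K + (N - j1) * e) w := by
      have h4 := pfx_mul_e hp (K + e) (N - j1 - 1)
      have h5 : K + e + e * (N - j1 - 1) = K + (N - j1) * e := by
        obtain ⟨x, hx⟩ : ∃ x, N - j1 = x + 1 := ⟨N - j1 - 1, by omega⟩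
        rw [hx, Nat.add_sub_cancel]
        ring
      rwa [h5] at h4
    have h4 : it h (K + (N - j1)) w <+: it h (K + (N - j1) * e) w := by
      have := hchain (e - 1)
      rwa [show e - 1 + 1 = e by omega] at this
    -- `w_K ++ w` is a prefix of `w_(K + N - j1)`
    have h5 : it h K w ++ w <+: it h (K + (N - j1) * e) w := by
      refine List.IsPrefix.trans ?_ h4
      rw [h1]
      apply (List.prefix_append_right_inj _).2
      refine List.IsPrefix.trans ?_ (List.prefix_append _ _)
      have h6 := pfx_mul_e hp 0 s
      rw [it_zero, show 0 + e * s = j2 + (K - j1) by omega] at h6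
      exact h6
    rw [← hy] at h3
    have h6 : it h K w ++ w <+: it h K w ++ y := by
      refine List.prefix_of_prefix_length_le h5 h3 ?_
      have h7 : ln (K + e) = ln K + y.length := by
        simp only [hln]
        rw [← hy, List.length_append]
      have h8 : ln 0 = w.length := rfl
      rw [List.length_append, List.length_append]
      omega
    exact (List.prefix_append_right_inj _).1 h6
  refine dens_false_e (c := K) (e := e) hΛ hlt hrel hpos hmono hdb ?_ hno
  intro t
  have h1 : it h K w ++ w <+: it h (K + e) w := by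
    rw [← hy]
    exact (List.prefix_append_right_inj _).2 hwy
  have h2 := it_prefix (h := h) t h1
  rw [it_append, ← it_add, ← it_add] at h2
  have h3 : K + t = t + K := Nat.add_comm _ _
  rw [h3, add_assoc]
  exact h2

/-- **Lemma T with a period.**  A locally catenative nonerasing system with `h^k(w)` a prefix of `h^(k+e)(w)` has a
relation `h^(p+e)(w) = h^p(w) * product of h^j(w), j < p + e`. -/
theorem lemTe [Fintype α] {h : α → List α} {w : List α} (hne : ∀ a, h a ≠ []) (hw : w ≠ [])
    (hlc : LC h w) {k e : ℕ} (he : 0 < e) (hp : it h k w <+: it h (k + e) w) :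
    ∃ (p : ℕ) (js : List ℕ), (∀ j ∈ js, j < p + e) ∧
      it h (p + e) w = it h p w ++ (js.map (fun j => it h j w)).flatten := by
  have hp' : it h k w <+: it h e (it h k w) := by
    rw [← it_add, Nat.add_comm]
    exact hp
  have hwk : it h k w ≠ [] := by
    intro h1
    have h2 := length_it_mono' hne w k
    rw [h1, List.length_nil] at h2
    exact hw (List.length_eq_zero_iff.1 (by omega))
  obtain ⟨p, js, h1, h2⟩ := lemTe0 (Λ := ∑ a, (h a).length) (fun a => Finset.single_le_sum
    (f := fun a => (h a).length) (fun _ _ => Nat.zero_le _) (Finset.mem_univ a)) hne hwk he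
    (hlc.shift k) hp'
  refine ⟨p + k, js.map (· + k), ?_, ?_⟩
  · intro j hj
    obtain ⟨i, hi, rfl⟩ := List.mem_map.1 hj
    have := h1 i hi
    omega
  · rw [← it_add, ← it_add] at h2
    have h3 : p + k + e = p + e + k := by omega
    rw [h3, h2, List.map_map]
    congr 2
    apply List.map_congr_left
    intro j _
    simp only [Function.comp]
    rw [it_add]

end OE

end D0L
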